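import Mathlib

/-!
Peeling a rectangle: cyclic words with an even number of zeros between consecutive ones.
The four sides of the rectangle carry words (clockwise): `T` (top), `R` (right), `B` (bottom),
`L` (left). Peeling one row or column deletes two neighbouring zeros.
-/

set_option autoImplicit false

namespace Sg

/-- automaton that accepts the words in which the zeros between two consecutive ones have even
number; state `false`: a one is allowed -/
def run : Bool → List Bool → Option Bool
  | d, [] => some d
  | d, false :: w => run (!d) w
  | false, true :: w => run false w
  | true, true :: _ => none

lemma run_append (d : Bool) (u v : List Bool) : run d (u ++ v) = (run d u).bind (fun e => run e v) := by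
  induction u generalizing d with
  | nil => rfl
  | cons x u ih =>
    cases x with
    | false => exact ih _
    | true =>
      cases d with
      | false => exact ih _
      | true => rfl

lemma run_ff (d : Bool) (u v : List Bool) : run d (u ++ false :: false :: v) = run d (u ++ v) := by
  rw [run_append, run_append]
  congr 1
  funext e
  simp only [run, Bool.not_not]

/-- good cyclic words -/
def CG (w : List Bool) : Prop := ∃ d, run d w = some d

lemma CG.rot {u v : List Bool} (h : CG (u ++ v)) : CG (v ++ u) := by
  obtain ⟨d, h⟩ := h
  rw [run_append] at h
  obtain ⟨e, h1, h2⟩ := Option.bind_eq_some_iff.1 h
  exact ⟨e, by rw [run_append, h2]; exact h1⟩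

lemma CG.del {u v : List Bool} (h : CG (u ++ false :: false :: v)) : CG (u ++ v) := by
  obtain ⟨d, h⟩ := h
  exact ⟨d, by rwa [run_ff] at h⟩

lemma CG.fac {u v : List Bool} (h : CG (u ++ v)) : ∃ d e, run d u = some e := by
  obtain ⟨d, h⟩ := h
  rw [run_append] at h
  obtain ⟨e, h1, h2⟩ := Option.bind_eq_some_iff.1 h
  exact ⟨d, e, h1⟩

/-- number of ones -/
abbrev ct (w : List Bool) : ℕ := w.count true

/-- zeros before the last one -/
def zs : List Bool → ℕ
  | [] => 0
  | x :: w => if true ∈ w then zs w + (if x then 0 else 1) else 0

lemma zs_le (w : List Bool) : zs w ≤ w.length := by
  induction w with
  | nil => exact le_rfl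
  | cons x w ih =>
    unfold zs
    split_ifs <;> simp only [List.length_cons] <;> omega

lemma zs_cons_of {x : Bool} {w : List Bool} (h : true ∈ w) :
    zs (x :: w) = zs w + (if x then 0 else 1) := by
  conv_lhs => unfold zs
  rw [if_pos h]

lemma zs_cons_not {x : Bool} {w : List Bool} (h : true ∉ w) : zs (x :: w) = 0 := by
  conv_lhs => unfold zs
  rw [if_neg h]

lemma zs_not {w : List Bool} (h : true ∉ w) : zs w = 0 := by
  cases w with
  | nil => rfl
  | cons x w => exact zs_cons_not (fun h' => h (List.mem_cons_of_mem _ h'))

lemma zs_append_of (u : List Bool) {v : List Bool} (h : true ∈ v) :
    zs (u ++ v) = zs v + u.count false := by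
  induction u with
  | nil => simp
  | cons x u ih =>
    rw [List.cons_append, zs_cons_of (List.mem_append_right _ h), ih]
    cases x
    · simp only [Bool.false_eq_true, if_false, List.count_cons_self]
      omega
    · simp only [if_true, add_zero]
      rw [List.count_cons_of_ne (by decide)]

lemma zs_append_not {u v : List Bool} (h : true ∉ v) : zs (u ++ v) = zs u := by
  induction u with
  | nil => rw [List.nil_append, zs_not h]; rfl
  | cons x u ih =>
    rw [List.cons_append]
    by_cases hu : true ∈ u
    · rw [zs_cons_of (List.mem_append_left _ hu), zs_cons_of hu, ih]
    · rw [zs_cons_not hu, zs_cons_not]
      intro h'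
      rcases List.mem_append.1 h' with h' | h'
      · exact hu h'
      · exact h h'

/-- two neighbouring zeros exist if there are few ones -/
lemma exists_ff {w : List Bool} {d e : Bool} (h : run d w = some e) (hc : ct w + 3 ≤ w.length) :
    ∃ u v, w = u ++ false :: false :: v := by
  have key : ∀ (w : List Bool) (d e : Bool), run d w = some e →
      (¬ ∃ u v, w = u ++ false :: false :: v) → w.length ≤ ct w + (if d then 2 else 1) := by
    intro w
    induction w with
    | nil => intro d e _ _; simp
    | cons x w ih =>
      intro d e h hn
      have hn' : ¬ ∃ u v, w = u ++ false :: false :: v := by
        rintro ⟨u, v, h1⟩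
        exact hn ⟨x :: u, v, by rw [h1]; rfl⟩
      cases x with
      | true =>
        cases d with
        | false =>
          have := ih false e h hn'
          unfold ct at *
          simp only [List.length_cons, List.count_cons_self, Bool.false_eq_true, if_false] at this ⊢
          omega
        | true => exact absurd h (by simp [run])
      | false =>
        have h1 : run (!d) w = some e := h
        cases d with
        | true =>
          have := ih false e h1 hn'
          unfold ct at *
          rw [List.count_cons_of_ne (by decide)]
          simp only [List.length_cons, Bool.false_eq_true, if_false, if_true] at this ⊢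
          omega
        | false =>
          -- state true after a zero: the rest is empty
          cases w with
          | nil => simp
          | cons y w =>
            cases y with
            | true => exact absurd h1 (by simp [run])
            | false => exact absurd ⟨[], w, rfl⟩ hn
  by_contra hn
  have := key w d e h hn
  split_ifs at this <;> omega

/-- two neighbouring zeros before the last one -/
lemma exists_ff_before {w : List Bool} {d e : Bool} (h : run d w = some e) (hz : 2 ≤ zs w) :
    ∃ u v, w = u ++ false :: false :: v ∧ true ∈ v := by
  have key : ∀ (w : List Bool) (d e : Bool), run d w = some e →
      (¬ ∃ u v, w = u ++ false :: false :: v ∧ true ∈ v) → zs w ≤ (if d then 1 else 0) := by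
    intro w
    induction w with
    | nil => intro d e _ _; simp [zs]
    | cons x w ih =>
      intro d e h hn
      have hn' : ¬ ∃ u v, w = u ++ false :: false :: v ∧ true ∈ v := by
        rintro ⟨u, v, h1, h2⟩
        exact hn ⟨x :: u, v, by rw [h1]; rfl, h2⟩
      by_cases hw : true ∈ w
      · rw [zs_cons_of hw]
        cases x with
        | true =>
          cases d with
          | false =>
            have := ih false e h hn'
            simpa using this
          | true => exact absurd h (by simp [run])
        | false =>
          have h1 : run (!d) w = some e := h
          cases d with
          | true =>
            have := ih false e h1 hn'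
            simp only [Bool.false_eq_true, if_false, if_true] at this ⊢
            omega
          | false =>
            exfalso
            cases w with
            | nil => exact absurd hw (by simp)
            | cons y w =>
              cases y with
              | true => exact absurd h1 (by simp [run])
              | false =>
                exact hn ⟨[], w, rfl, by simpa using hw⟩
      · rw [zs_cons_not hw]
        exact Nat.zero_le _
  by_contra hn
  have := key w d e h hn
  split_ifs at this <;> omega

/-- **one step towards compact words** -/
lemma step {l : Bool} {T : List Bool} {d e : Bool}
    (h : run d (l :: (T ++ [false])) = some e) (hc : ct T + 3 ≤ T.length) :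
    ∃ u v, l :: (T ++ [false]) = u ++ false :: false :: v ∧ zs (u ++ v) ≤ max (zs T - 1) 1 := by
  have e0 : l :: (T ++ [false]) = (l :: T) ++ [false] := rfl
  have hz0 : zs (l :: (T ++ [false])) = zs (l :: T) := by
    rw [e0]
    exact zs_append_not (by simp)
  have hz1 : zs (l :: T) ≤ zs T + 1 := by
    by_cases hT : true ∈ T
    · rw [zs_cons_of hT]
      split_ifs <;> omega
    · rw [zs_cons_not hT]; omega
  by_cases hz : 2 ≤ zs (l :: T)
  · obtain ⟨u, v, h1, h2⟩ := exists_ff_before h (hz0 ▸ hz)
    refine ⟨u, v, h1, ?_⟩
    have h3 : zs (l :: (T ++ [false])) = zs v + (u.count false + 2) := by
      rw [h1, zs_append_of u (by simp [h2]), zs_cons_of (by simp [h2]), zs_cons_of h2]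
      simp only [Bool.false_eq_true, if_false]
      omega
    rw [zs_append_of u h2]
    omega
  · have hlen : ct (l :: (T ++ [false])) + 3 ≤ (l :: (T ++ [false])).length := by
      have g1 : (l :: (T ++ [false])).length = T.length + 2 := by simp
      have g2 : ct (l :: (T ++ [false])) ≤ ct T + 1 := by
        unfold ct
        cases l <;> simp
      omega
    obtain ⟨u, v, h1⟩ := exists_ff h hlen
    refine ⟨u, v, h1, ?_⟩
    have h4 : zs (u ++ v) ≤ zs (l :: (T ++ [false])) := by
      rw [h1]
      by_cases hv : true ∈ v
      · rw [zs_append_of u hv, zs_append_of u (by simp [hv]), zs_cons_of (by simp [hv]),
          zs_cons_of hv]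
        omega
      · rw [zs_append_not hv, zs_append_not (by simpa using hv)]
    omega

/-- compact words -/
lemma compact {T : List Bool} {d e : Bool} (h : run d T = some e) (hz : zs T ≤ 1) :
    ∃ a b : ℕ, a ≤ 1 ∧ T = List.replicate a false ++ (List.replicate (ct T) true ++
      List.replicate b false) := by
  have key : ∀ (T : List Bool) (e : Bool), run false T = some e → zs T ≤ 0 →
      ∃ b, T = List.replicate (ct T) true ++ List.replicate b false := by
    intro T
    induction T with
    | nil => intro _ _ _; exact ⟨0, rfl⟩
    | cons x T ih =>
      intro e h hz
      by_cases hT : true ∈ T
      · rw [zs_cons_of hT] at hz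
        cases x with
        | true =>
          obtain ⟨b, hb⟩ := ih e h (by omega)
          refine ⟨b, ?_⟩
          rw [ct, List.count_cons_self, List.replicate_succ, List.cons_append]
          congr 1
        | false => simp at hz
      · have hT' : T = List.replicate T.length false := by
          rw [List.eq_replicate_iff]
          exact ⟨rfl, fun b hb => by
            cases b
            · rfl
            · exact absurd hb hT⟩
        have hc : ct T = 0 := List.count_eq_zero.2 hT
        cases x with
        | true =>
          refine ⟨T.length, ?_⟩
          rw [ct, List.count_cons_self, List.count_eq_zero.2 hT]
          simpa using hT'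
        | false =>
          refine ⟨T.length + 1, ?_⟩
          rw [ct, List.count_cons_of_ne (by decide), List.count_eq_zero.2 hT, List.replicate_zero,
            List.nil_append, List.replicate_succ]
          congr 1
  cases T with
  | nil => exact ⟨0, 0, by omega, rfl⟩
  | cons x T =>
    by_cases hT : true ∈ T
    · rw [zs_cons_of hT] at hz
      cases x with
      | true =>
        cases d with
        | true => exact absurd h (by simp [run])
        | false =>
          have h1 : run false T = some e := h
          have h0 : zs T ≤ 0 := by
            by_contra h0
            have hz1 : zs T = 1 := by simp at hz; omega
            -- a zero at the front of `T` followed by a one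
            have aux : ∀ (T : List Bool) (e : Bool), run false T = some e → zs T ≠ 1 := by
              intro T
              induction T with
              | nil => intro e _; simp [zs]
              | cons y T ih =>
                intro e h
                by_cases hT : true ∈ T
                · rw [zs_cons_of hT]
                  cases y with
                  | true =>
                    have := ih e h
                    simpa using this
                  | false =>
                    have h2 : run true T = some e := h
                    intro h3
                    have h4 : zs T = 0 := by simp at h3; exact h3
                    cases T with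
                    | nil => exact absurd hT (by simp)
                    | cons y T =>
                      cases y with
                      | true => exact absurd h2 (by simp [run])
                      | false =>
                        have h5 : true ∈ T := by simpa using hT
                        rw [zs_cons_of h5] at h4
                        simp at h4
                · rw [zs_cons_not hT]; omega
            exact aux T e h1 hz1
          obtain ⟨b, hb⟩ := key (true :: T) e h (by rw [zs_cons_of hT]; simpa using h0)
          exact ⟨0, b, by omega, by simpa using hb⟩
      | false =>
        have h0 : zs T = 0 := by simp at hz; omega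
        have h1 : run (!d) T = some e := h
        have hd : (!d) = false := by
          cases T with
          | nil => exact absurd hT (by simp)
          | cons y T =>
            cases y with
            | true =>
              by_contra hd
              have : (!d) = true := by revert hd; cases d <;> simp
              rw [this] at h1
              exact absurd h1 (by simp [run])
            | false =>
              have h5 : true ∈ T := by simpa using hT
              rw [zs_cons_of h5] at h0
              simp at h0
        rw [hd] at h1
        obtain ⟨b, hb⟩ := key T e h1 (by omega)
        refine ⟨1, b, le_rfl, ?_⟩
        rw [ct, List.count_cons_of_ne (by decide)]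
        show false :: T = false :: _
        congr 1
    · have hc : ct T = 0 := List.count_eq_zero.2 hT
      have hT' : T = List.replicate T.length false := by
        rw [List.eq_replicate_iff]
        exact ⟨rfl, fun b hb => by
          cases b
          · rfl
          · exact absurd hb hT⟩
      cases x with
      | true =>
        refine ⟨0, T.length, by omega, ?_⟩
        rw [ct, List.count_cons_self, List.count_eq_zero.2 hT]
        simpa using hT'
      | false =>
        refine ⟨0, T.length + 1, by omega, ?_⟩
        rw [ct, List.count_cons_of_ne (by decide), List.count_eq_zero.2 hT]
        simp only [List.replicate_zero, List.nil_append, List.replicate_succ]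
        congr 1

/-! ### solvable positions -/

/-- the special strands can be led to the two sides of a horizontal slit of length `k` -/
inductive Solv (k : ℕ) : List Bool → List Bool → List Bool → List Bool → Prop
  | base (a b : ℕ) : Solv k
      (List.replicate a false ++ (List.replicate k true ++ List.replicate b false)) []
      (List.replicate b false ++ (List.replicate k true ++ List.replicate a false)) []
  | top {T R B L u v : List Bool} {l r : Bool} (h : l :: (T ++ [r]) = u ++ false :: false :: v)
      (hs : Solv k (u ++ v) R B L) : Solv k T (r :: R) B (L ++ [l])
  | bot {T R B L u v : List Bool} {l r : Bool} (h : r :: (B ++ [l]) = u ++ false :: false :: v)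
      (hs : Solv k T R (u ++ v) L) : Solv k T (R ++ [r]) B (l :: L)
  | left {T R B L u v : List Bool} {t b : Bool} (h : b :: (L ++ [t]) = u ++ false :: false :: v)
      (hs : Solv k T R B (u ++ v)) : Solv k (t :: T) R (B ++ [b]) L

/-- reflection in a horizontal line -/
lemma Solv.mir {k : ℕ} {T R B L : List Bool} (h : Solv k T R B L) :
    Solv k B.reverse R.reverse T.reverse L.reverse := by
  induction h with
  | base a b =>
    have e1 : (List.replicate b false ++ (List.replicate k true ++ List.replicate a false)).reverse
        = List.replicate a false ++ (List.replicate k true ++ List.replicate b false) := by
      simp [List.reverse_append, List.reverse_replicate]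
    have e2 : (List.replicate a false ++ (List.replicate k true ++ List.replicate b false)).reverse
        = List.replicate b false ++ (List.replicate k true ++ List.replicate a false) := by
      simp [List.reverse_append, List.reverse_replicate]
    rw [e1, e2]
    exact Solv.base a b
  | @top T R B L u v l r h hs ih =>
    have e1 : (r :: R).reverse = R.reverse ++ [r] := by simp
    have e2 : (L ++ [l]).reverse = l :: L.reverse := by simp
    rw [e1, e2]
    rw [List.reverse_append] at ih
    refine Solv.bot ?_ ih
    have := congrArg List.reverse h
    simpa [List.reverse_append] using this
  | @bot T R B L u v l r h hs ih =>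
    have e1 : (R ++ [r]).reverse = r :: R.reverse := by simp
    have e2 : (l :: L).reverse = L.reverse ++ [l] := by simp
    rw [e1, e2]
    rw [List.reverse_append] at ih
    refine Solv.top ?_ ih
    have := congrArg List.reverse h
    simpa [List.reverse_append] using this
  | @left T R B L u v t b h hs ih =>
    have e1 : (t :: T).reverse = T.reverse ++ [t] := by simp
    have e2 : (B ++ [b]).reverse = b :: B.reverse := by simp
    rw [e1, e2]
    rw [List.reverse_append] at ih
    refine Solv.left ?_ ih
    have := congrArg List.reverse h
    simpa [List.reverse_append] using this

end Sg
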