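import Pool.Agent.Helper8.Sg.Comb

/-!
Tall rectangles are solvable.
-/

set_option autoImplicit false

namespace Sg

lemma run_reverse {w : List Bool} {d e : Bool} (h : run d w = some e) :
    run e w.reverse = some d := by
  induction w generalizing d with
  | nil =>
    simp only [run, Option.some.injEq] at h
    simp [run, h]
  | cons x w ih =>
    rw [List.reverse_cons, run_append]
    cases x with
    | false =>
      have h1 : run (!d) w = some e := h
      rw [ih h1]
      simp [run]
    | true =>
      cases d with
      | false =>
        have h1 : run false w = some e := h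
        rw [ih h1]
        simp [run]
      | true => exact absurd h (by simp [run])

lemma run_zeros (d : Bool) (n : ℕ) : run d (List.replicate n false) =
    some (if n % 2 = 0 then d else !d) := by
  induction n generalizing d with
  | zero => rfl
  | succ n ih =>
    rw [List.replicate_succ]
    show run (!d) (List.replicate n false) = _
    rw [ih]
    rcases Nat.mod_two_eq_zero_or_one n with h | h
    · rw [if_pos h, if_neg (by omega)]
    · rw [if_neg (by omega), if_pos (by omega), Bool.not_not]

lemma run_ones {k : ℕ} (hk : 1 ≤ k) {d e : Bool} (h : run d (List.replicate k true) = some e) :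
    d = false ∧ e = false := by
  induction k with
  | zero => omega
  | succ k ih =>
    rw [List.replicate_succ] at h
    cases d with
    | true => exact absurd h (by simp [run])
    | false =>
      have h1 : run false (List.replicate k true) = some e := h
      rcases Nat.eq_zero_or_pos k with h0 | h0
      · subst h0
        simp only [List.replicate_zero, run, Option.some.injEq] at h1
        exact ⟨rfl, h1.symm⟩
      · exact ih h0 h1

lemma cg_top {T R X L u v : List Bool} {l r : Bool}
    (h : CG (T ++ (r :: R ++ (X ++ (L ++ [l])))))
    (hw : l :: (T ++ [r]) = u ++ false :: false :: v) : CG ((u ++ v) ++ (R ++ (X ++ L))) := by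
  have e1 : T ++ (r :: R ++ (X ++ (L ++ [l]))) = (T ++ r :: (R ++ (X ++ L))) ++ [l] := by simp
  rw [e1] at h
  have h2 := h.rot
  have e2 : [l] ++ (T ++ r :: (R ++ (X ++ L))) = (l :: (T ++ [r])) ++ (R ++ (X ++ L)) := by simp
  rw [e2, hw] at h2
  have e3 : u ++ false :: false :: v ++ (R ++ (X ++ L)) =
      u ++ false :: false :: (v ++ (R ++ (X ++ L))) := by simp
  rw [e3] at h2
  have h3 := h2.del
  rwa [← List.append_assoc] at h3

lemma cg_bot {T R B L u v : List Bool} {l r : Bool}
    (h : CG (T ++ ((R ++ [r]) ++ (B ++ (l :: L)))))
    (hw : r :: (B ++ [l]) = u ++ false :: false :: v) : CG (T ++ (R ++ ((u ++ v) ++ L))) := by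
  have e1 : T ++ ((R ++ [r]) ++ (B ++ (l :: L))) = (T ++ R) ++ ((r :: (B ++ [l])) ++ L) := by simp
  rw [e1, hw] at h
  have e2 : (T ++ R) ++ ((u ++ false :: false :: v) ++ L) =
      (T ++ (R ++ u)) ++ false :: false :: (v ++ L) := by simp
  rw [e2] at h
  have h2 := h.del
  have e3 : (T ++ (R ++ u)) ++ (v ++ L) = T ++ (R ++ ((u ++ v) ++ L)) := by simp
  rwa [e3] at h2

lemma cg_left {T R B L u v : List Bool} {t b : Bool}
    (h : CG ((t :: T) ++ (R ++ ((B ++ [b]) ++ L))))
    (hw : b :: (L ++ [t]) = u ++ false :: false :: v) : CG (T ++ (R ++ (B ++ (u ++ v)))) := by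
  have e1 : (t :: T) ++ (R ++ ((B ++ [b]) ++ L)) = (t :: (T ++ (R ++ B))) ++ (b :: L) := by simp
  rw [e1] at h
  have h2 := h.rot
  have e2 : (b :: L) ++ (t :: (T ++ (R ++ B))) = (b :: (L ++ [t])) ++ (T ++ (R ++ B)) := by simp
  rw [e2, hw] at h2
  have e3 : u ++ false :: false :: v ++ (T ++ (R ++ B)) =
      u ++ false :: false :: (v ++ (T ++ (R ++ B))) := by simp
  rw [e3] at h2
  have h3 := h2.del
  have e4 : u ++ (v ++ (T ++ (R ++ B))) = (u ++ v) ++ (T ++ (R ++ B)) := by simp
  rw [e4] at h3
  have h4 := h3.rot
  have e5 : T ++ (R ++ B) ++ (u ++ v) = T ++ (R ++ (B ++ (u ++ v))) := by simp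
  rwa [e5] at h4

lemma cg_run_top {T R X L : List Bool} {l r : Bool}
    (h : CG (T ++ (r :: R ++ (X ++ (L ++ [l]))))) : ∃ d e, run d (l :: (T ++ [r])) = some e := by
  have e1 : T ++ (r :: R ++ (X ++ (L ++ [l]))) = (T ++ r :: (R ++ (X ++ L))) ++ [l] := by simp
  rw [e1] at h
  have h2 := h.rot
  have e2 : [l] ++ (T ++ r :: (R ++ (X ++ L))) = (l :: (T ++ [r])) ++ (R ++ (X ++ L)) := by simp
  rw [e2] at h2
  exact h2.fac

lemma cg_run_bot {T R B L : List Bool} {l r : Bool}
    (h : CG (T ++ ((R ++ [r]) ++ (B ++ (l :: L))))) : ∃ d e, run d (r :: (B ++ [l])) = some e := by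
  have e1 : T ++ ((R ++ [r]) ++ (B ++ (l :: L))) = (T ++ R) ++ ((r :: (B ++ [l])) ++ L) := by simp
  rw [e1] at h
  have h2 := h.rot
  rw [List.append_assoc] at h2
  exact h2.fac

lemma cg_run_left {T R B L : List Bool} {t b : Bool}
    (h : CG ((t :: T) ++ (R ++ ((B ++ [b]) ++ L)))) : ∃ d e, run d (b :: (L ++ [t])) = some e := by
  have e1 : (t :: T) ++ (R ++ ((B ++ [b]) ++ L)) = (t :: (T ++ (R ++ B))) ++ (b :: L) := by simp
  rw [e1] at h
  have h2 := h.rot
  have e2 : (b :: L) ++ (t :: (T ++ (R ++ B))) = (b :: (L ++ [t])) ++ (T ++ (R ++ B)) := by simp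
  rw [e2] at h2
  exact h2.fac

lemma len_win {T u v : List Bool} {l r : Bool} (h : l :: (T ++ [r]) = u ++ false :: false :: v) :
    (u ++ v).length = T.length ∧ ct (u ++ v) = ct T + (if l then 1 else 0) + (if r then 1 else 0) := by
  have h1 := congrArg List.length h
  have h2 := congrArg (List.count true) h
  simp only [List.length_cons, List.length_append, List.length_nil] at h1
  rw [List.count_cons, List.count_append, List.count_append, List.count_cons, List.count_cons,
    List.count_cons] at h2
  refine ⟨by rw [List.length_append]; omega, ?_⟩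
  unfold ct
  rw [List.count_append]
  cases l <;> cases r <;> simp at h2 ⊢ <;> omega

/-- compact top and bottom sides, at most `k` ones on each, no ones at the right -/
theorem solvS {k : ℕ} (hk : 1 ≤ k) : ∀ (H : ℕ) (T B L : List Bool), L.length = H →
    T.length = B.length → CG (T ++ (List.replicate H false ++ (B ++ L))) → zs T ≤ 1 →
    zs B.reverse ≤ 1 → ct T ≤ k → ct B ≤ k → ct T + ct L + ct B = 2 * k → k + 3 ≤ T.length →
    Solv k T (List.replicate H false) B L := by
  intro H
  induction H with
  | zero =>
    intro T B L hL hTB hC hzT hzB hcT hcB hsum hA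
    have hL0 : L = [] := List.eq_nil_of_length_eq_zero hL
    subst hL0
    simp only [List.replicate_zero, List.nil_append, List.append_nil, List.count_nil,
      Nat.add_zero] at hC hsum ⊢
    have hT : ct T = k := by unfold ct at *; omega
    have hB : ct B = k := by unfold ct at *; omega
    obtain ⟨d, hd⟩ := hC
    rw [run_append] at hd
    obtain ⟨e, h1, h2⟩ := Option.bind_eq_some_iff.1 hd
    obtain ⟨a, b, ha, eT⟩ := compact h1 hzT
    have h3 := run_reverse h2
    obtain ⟨a', b', ha', eB⟩ := compact h3 hzB
    have hBr : ct B.reverse = k := by rw [ct, List.count_reverse]; exact hB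
    rw [hBr] at eB
    rw [hT] at eT
    -- lengths
    have l1 := congrArg List.length eT
    have l2 := congrArg List.length eB
    simp only [List.length_append, List.length_replicate, List.length_reverse] at l1 l2
    -- parity
    have haa : a = a' := by
      rw [eT, run_append, run_zeros] at h1
      simp only [Option.bind_some] at h1
      rw [run_append] at h1
      obtain ⟨g, g1, g2⟩ := Option.bind_eq_some_iff.1 h1
      obtain ⟨q1, -⟩ := run_ones hk g1
      rw [eB, run_append, run_zeros] at h3
      simp only [Option.bind_some] at h3
      rw [run_append] at h3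
      obtain ⟨g', g1', g2'⟩ := Option.bind_eq_some_iff.1 h3
      obtain ⟨q1', -⟩ := run_ones hk g1'
      revert q1 q1'
      rcases (by omega : a = 0 ∨ a = 1) with rfl | rfl <;>
      rcases (by omega : a' = 0 ∨ a' = 1) with rfl | rfl <;> cases d <;> simp
    subst haa
    have hbb : b = b' := by omega
    subst hbb
    have eB' : B = List.replicate b false ++ (List.replicate k true ++ List.replicate a false) := by
      have := congrArg List.reverse eB
      simpa [List.reverse_append, List.reverse_replicate] using this
    rw [eT, eB']
    exact Solv.base a b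
  | succ H ih =>
    intro T B L hL hTB hC hzT hzB hcT hcB hsum hA
    by_cases hcase : ct T < k ∨ ct B = k
    · -- a row at the top
      obtain ⟨L', l, rfl⟩ : ∃ L' l, L = L' ++ [l] := by
        rcases List.eq_nil_or_concat L with h | ⟨L', l, h⟩
        · rw [h] at hL; simp at hL
        · exact ⟨L', l, by rw [h, List.concat_eq_append]⟩
      rw [List.replicate_succ] at hC ⊢
      obtain ⟨d, e, hr⟩ := cg_run_top hC
      obtain ⟨u, v, hw, hz⟩ := step hr (by unfold ct at *; omega)
      obtain ⟨n1, n2⟩ := len_win hw
      refine Solv.top hw (ih _ _ _ (by simpa using hL) (n1.trans hTB) (cg_top hC hw) (by omega)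
        hzB ?_ hcB ?_ (by omega))
      · rw [n2]
        simp only [Bool.false_eq_true, if_false, Nat.add_zero]
        rcases hcase with h | h
        · split_ifs <;> omega
        · by_cases hl : l = true
          · subst hl
            unfold ct at *
            simp only [List.count_append, List.count_cons_self, List.count_nil] at hsum
            simp only [if_true]
            omega
          · rw [if_neg hl]; omega
      · rw [n2]
        unfold ct at *
        simp only [List.count_append] at hsum
        cases l <;> simp at hsum ⊢ <;> omega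
    · push Not at hcase
      obtain ⟨hT, hB⟩ := hcase
      obtain ⟨l, L', rfl⟩ : ∃ l L', L = l :: L' := by
        cases L with
        | nil => simp at hL
        | cons l L' => exact ⟨l, L', rfl⟩
      rw [List.replicate_succ'] at hC ⊢
      obtain ⟨d, e, hr⟩ := cg_run_bot hC
      have hr2 := run_reverse hr
      have e1 : (false :: (B ++ [l])).reverse = l :: (B.reverse ++ [false]) := by simp
      rw [e1] at hr2
      obtain ⟨u, v, hw, hz⟩ := step hr2 (by
        rw [ct, List.count_reverse, List.length_reverse]
        unfold ct at *
        omega)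
      have hw' : false :: (B ++ [l]) = v.reverse ++ false :: false :: u.reverse := by
        rw [← e1] at hw
        have := congrArg List.reverse hw
        simpa [List.reverse_append] using this
      obtain ⟨n1, n2⟩ := len_win hw'
      have e2 : (v.reverse ++ u.reverse).reverse = u ++ v := by simp
      refine Solv.bot hw' (ih _ _ _ (by simpa using hL) (hTB.trans n1.symm) (cg_bot hC hw') hzT
        (by rw [e2]; omega) hcT ?_ ?_ hA)
      · rw [n2]
        simp only [Bool.false_eq_true, if_false, Nat.add_zero]
        split_ifs <;> omega
      · rw [n2]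
        unfold ct at *
        simp only [List.count_cons] at hsum
        cases l <;> simp at hsum ⊢ <;> omega

lemma zs_tail {x : Bool} {w : List Bool} : zs w + ct w + (if true ∈ w then 1 else 0) ≤
    zs (x :: w) + ct (x :: w) := by
  by_cases h : true ∈ w
  · rw [zs_cons_of h, if_pos h]
    unfold ct
    cases x
    · rw [List.count_cons_of_ne (by decide)]; simp
    · rw [List.count_cons_self]; simp
  · rw [zs_not h, ct, List.count_eq_zero.2 h, if_neg h]
    exact Nat.zero_le _

lemma zs_tail' {x : Bool} {w : List Bool} : zs w ≤ zs (x :: w) := by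
  by_cases h : true ∈ w
  · rw [zs_cons_of h]; omega
  · rw [zs_not h]; exact Nat.zero_le _

/-- compact top and bottom sides, no ones at the right -/
theorem solvS2 {k : ℕ} (hk : 1 ≤ k) : ∀ (A : ℕ) (T B L : List Bool) (H : ℕ), T.length = A →
    B.length = A → L.length = H → 2 * k + 1 ≤ H →
    CG (T ++ (List.replicate H false ++ (B ++ L))) → zs T ≤ 1 → zs B.reverse ≤ 1 →
    ct T + ct L + ct B = 2 * k → zs T + ct T + 4 ≤ A → zs B.reverse + ct B + 4 ≤ A → k + 3 ≤ A →
    Solv k T (List.replicate H false) B L := by
  intro A
  induction A with
  | zero => intro T B L H _ _ _ _ _ _ _ _ _ _ h; omega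
  | succ A ih =>
    intro T B L H hT hB hL hH hC hzT hzB hsum hdT hdB hA
    by_cases hcase : ct T ≤ k ∧ ct B ≤ k
    · exact solvS hk H T B L hL (by omega) hC hzT hzB hcase.1 hcase.2 hsum (by omega)
    · have hA2 : k + 5 ≤ A + 1 := by
        unfold ct at *
        omega
      obtain ⟨t, T', rfl⟩ : ∃ t T', T = t :: T' := by
        cases T with
        | nil => simp at hT
        | cons t T' => exact ⟨t, T', rfl⟩
      obtain ⟨B', b, rfl⟩ : ∃ B' b, B = B' ++ [b] := by
        rcases List.eq_nil_or_concat B with h | ⟨B', b, h⟩
        · rw [h] at hB; simp at hB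
        · exact ⟨B', b, by rw [h, List.concat_eq_append]⟩
      obtain ⟨d, e, hr⟩ := cg_run_left hC
      have hcw : ct (b :: (L ++ [t])) ≤ 2 * k := by
        unfold ct at *
        simp only [List.count_cons, List.count_append, List.count_nil] at hsum ⊢
        omega
      obtain ⟨u, v, hw⟩ := exists_ff hr (by
        simp only [List.length_cons, List.length_append, List.length_nil]
        omega)
      obtain ⟨n1, n2⟩ := len_win hw
      have e3 : (B' ++ [b]).reverse = b :: B'.reverse := by simp
      rw [e3] at hzB hdB
      have z1 := zs_tail (x := t) (w := T')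
      have z2 := zs_tail (x := b) (w := B'.reverse)
      have z3 := zs_tail' (x := t) (w := T')
      have z4 := zs_tail' (x := b) (w := B'.reverse)
      have c1 : ct (B' ++ [b]) = ct (b :: B'.reverse) := by
        unfold ct
        rw [← e3, List.count_reverse]
      have c2 : ct B'.reverse = ct B' := by unfold ct; rw [List.count_reverse]
      rw [c1] at hdB
      simp only [List.length_cons, List.length_append, List.length_nil] at hT hB
      have d1 : zs T' + ct T' + 4 ≤ A := by
        by_cases h : true ∈ T'
        · rw [if_pos h] at z1; omega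
        · rw [zs_not h, ct, List.count_eq_zero.2 h]; omega
      have d2 : zs B'.reverse + ct B' + 4 ≤ A := by
        by_cases h : true ∈ B'.reverse
        · rw [if_pos h] at z2; omega
        · rw [zs_not h, ← c2, ct, List.count_eq_zero.2 h]; omega
      refine Solv.left hw (ih _ _ _ H (by omega) (by omega) (n1.trans hL) hH (cg_left hC hw)
        (by omega) (by omega) ?_ d1 d2 (by omega))
      rw [n2]
      unfold ct at *
      simp only [List.count_cons, List.count_append, List.count_nil] at hsum
      cases t <;> cases b <;> simp at hsum ⊢ <;> omega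

/-- no ones at the right -/
theorem solvS3 {k : ℕ} (hk : 1 ≤ k) : ∀ (m : ℕ) (T B L : List Bool) (H : ℕ),
    zs T + zs B.reverse ≤ m → T.length = B.length → 2 * k + 5 ≤ T.length → L.length = H →
    m + 2 * k + 1 ≤ H → CG (T ++ (List.replicate H false ++ (B ++ L))) →
    ct T + ct L + ct B = 2 * k → Solv k T (List.replicate H false) B L := by
  intro m
  induction m with
  | zero =>
    intro T B L H hm hTB hA hL hH hC hsum
    exact solvS2 hk T.length T B L H rfl hTB.symm hL (by omega) hC (by omega) (by omega) hsum
      (by unfold ct at *; omega) (by unfold ct at *; omega) (by omega)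
  | succ m ih =>
    intro T B L H hm hTB hA hL hH hC hsum
    obtain ⟨H', rfl⟩ : ∃ H', H = H' + 1 := ⟨H - 1, by omega⟩
    by_cases h1 : 2 ≤ zs T
    · obtain ⟨L', l, rfl⟩ : ∃ L' l, L = L' ++ [l] := by
        rcases List.eq_nil_or_concat L with h | ⟨L', l, h⟩
        · rw [h] at hL; simp at hL
        · exact ⟨L', l, by rw [h, List.concat_eq_append]⟩
      rw [List.replicate_succ] at hC ⊢
      obtain ⟨d, e, hr⟩ := cg_run_top hC
      obtain ⟨u, v, hw, hz⟩ := step hr (by unfold ct at *; omega)
      obtain ⟨n1, n2⟩ := len_win hw
      refine Solv.top hw (ih _ _ _ _ (by omega) (n1.trans hTB) (by omega) (by simpa using hL)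
        (by omega) (cg_top hC hw) ?_)
      rw [n2]
      unfold ct at *
      simp only [List.count_append] at hsum
      cases l <;> simp at hsum ⊢ <;> omega
    · by_cases h2 : 2 ≤ zs B.reverse
      · obtain ⟨l, L', rfl⟩ : ∃ l L', L = l :: L' := by
          cases L with
          | nil => simp at hL
          | cons l L' => exact ⟨l, L', rfl⟩
        rw [List.replicate_succ'] at hC ⊢
        obtain ⟨d, e, hr⟩ := cg_run_bot hC
        have hr2 := run_reverse hr
        have e1 : (false :: (B ++ [l])).reverse = l :: (B.reverse ++ [false]) := by simp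
        rw [e1] at hr2
        obtain ⟨u, v, hw, hz⟩ := step hr2 (by
          rw [ct, List.count_reverse, List.length_reverse]
          unfold ct at *
          omega)
        have hw' : false :: (B ++ [l]) = v.reverse ++ false :: false :: u.reverse := by
          rw [← e1] at hw
          have := congrArg List.reverse hw
          simpa [List.reverse_append] using this
        obtain ⟨n1, n2⟩ := len_win hw'
        have e2 : (v.reverse ++ u.reverse).reverse = u ++ v := by simp
        refine Solv.bot hw' (ih _ _ _ _ (by rw [e2]; omega) (hTB.trans n1.symm) hA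
          (by simpa using hL) (by omega) (cg_bot hC hw') ?_)
        rw [n2]
        unfold ct at *
        simp only [List.count_cons] at hsum
        cases l <;> simp at hsum ⊢ <;> omega
      · exact solvS2 hk T.length T B L _ rfl hTB.symm hL (by omega) hC (by omega) (by omega) hsum
          (by unfold ct at *; omega) (by unfold ct at *; omega) (by omega)

/-- a long run of zeros at the right -/
theorem solvS4 {k : ℕ} (hk : 1 ≤ k) (J : ℕ) : ∀ (n : ℕ) (R1 R2 T B L : List Bool),
    R1.length + R2.length = n → L.length = R1.length + J + R2.length → T.length = B.length →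
    2 * k + 5 ≤ T.length → 2 * T.length + 2 * k + 1 ≤ J →
    CG (T ++ ((R1 ++ (List.replicate J false ++ R2)) ++ (B ++ L))) →
    ct T + (ct R1 + ct R2) + ct L + ct B = 2 * k →
    Solv k T (R1 ++ (List.replicate J false ++ R2)) B L := by
  intro n
  induction n with
  | zero =>
    intro R1 R2 T B L hn hL hTB hA hJ hC hsum
    have h1 : R1 = [] := List.eq_nil_of_length_eq_zero (by omega)
    have h2 : R2 = [] := List.eq_nil_of_length_eq_zero (by omega)
    subst h1 h2
    simp only [List.nil_append, List.append_nil, List.length_nil, List.count_nil] at hL hC hsum ⊢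
    have z1 := zs_le T
    have z2 := zs_le B.reverse
    rw [List.length_reverse] at z2
    exact solvS3 hk _ T B L J le_rfl hTB hA (by omega) (by omega) hC (by unfold ct at *; omega)
  | succ n ih =>
    intro R1 R2 T B L hn hL hTB hA hJ hC hsum
    cases R1 with
    | cons r R1 =>
      obtain ⟨L', l, rfl⟩ : ∃ L' l, L = L' ++ [l] := by
        rcases List.eq_nil_or_concat L with h | ⟨L', l, h⟩
        · rw [h] at hL; simp at hL; omega
        · exact ⟨L', l, by rw [h, List.concat_eq_append]⟩
      rw [List.cons_append] at hC ⊢
      obtain ⟨d, e, hr⟩ := cg_run_top hC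
      have hcw : ct (l :: (T ++ [r])) ≤ 2 * k := by
        unfold ct at *
        simp only [List.count_cons, List.count_append, List.count_nil] at hsum ⊢
        omega
      obtain ⟨u, v, hw⟩ := exists_ff hr (by
        simp only [List.length_cons, List.length_append, List.length_nil]
        omega)
      obtain ⟨n1, n2⟩ := len_win hw
      simp only [List.length_cons, List.length_append, List.length_nil] at hn hL
      refine Solv.top hw (ih _ _ _ _ _ (by omega) (by omega) (n1.trans hTB) (by omega) (by omega)
        (cg_top hC hw) ?_)
      rw [n2]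
      unfold ct at *
      simp only [List.count_cons, List.count_append, List.count_nil] at hsum
      cases l <;> cases r <;> simp at hsum ⊢ <;> omega
    | nil =>
      obtain ⟨R2', r, rfl⟩ : ∃ R2' r, R2 = R2' ++ [r] := by
        rcases List.eq_nil_or_concat R2 with h | ⟨R2', r, h⟩
        · rw [h] at hn; simp at hn
        · exact ⟨R2', r, by rw [h, List.concat_eq_append]⟩
      obtain ⟨l, L', rfl⟩ : ∃ l L', L = l :: L' := by
        cases L with
        | nil => simp at hL
        | cons l L' => exact ⟨l, L', rfl⟩
      have e0 : ([] : List Bool) ++ (List.replicate J false ++ (R2' ++ [r])) =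
          ([] ++ (List.replicate J false ++ R2')) ++ [r] := by simp
      rw [e0] at hC ⊢
      obtain ⟨d, e, hr⟩ := cg_run_bot hC
      have hcw : ct (r :: (B ++ [l])) ≤ 2 * k := by
        unfold ct at *
        simp only [List.count_cons, List.count_append, List.count_nil] at hsum ⊢
        omega
      obtain ⟨u, v, hw⟩ := exists_ff hr (by
        simp only [List.length_cons, List.length_append, List.length_nil]
        omega)
      obtain ⟨n1, n2⟩ := len_win hw
      simp only [List.length_cons, List.length_append, List.length_nil] at hn hL
      refine Solv.bot hw (ih [] R2' T (u ++ v) L' (by simp; omega) (by simp; omega)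
        (hTB.trans n1.symm) hA hJ (cg_bot hC hw) ?_)
      rw [n2]
      unfold ct at *
      simp only [List.count_cons, List.count_append, List.count_nil] at hsum
      cases l <;> cases r <;> simp at hsum ⊢ <;> omega

/-- long runs of zeros exist -/
lemma exists_run (J : ℕ) : ∀ (c : ℕ) (R : List Bool), ct R ≤ c → (c + 1) * J + c ≤ R.length →
    ∃ R1 R2, R = R1 ++ (List.replicate J false ++ R2) := by
  intro c
  induction c with
  | zero =>
    intro R hc hR
    have h0 : true ∉ R := List.count_eq_zero.1 (by unfold ct at *; omega)
    refine ⟨[], List.replicate (R.length - J) false, ?_⟩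
    rw [List.nil_append, List.replicate_append_replicate]
    rw [List.eq_replicate_iff]
    refine ⟨by omega, fun b hb => ?_⟩
    cases b
    · rfl
    · exact absurd hb h0
  | succ c ih =>
    intro R hc hR
    by_cases h0 : true ∈ R
    · obtain ⟨s, t, rfl, hs⟩ : ∃ s t, R = s ++ true :: t ∧ true ∉ s := by
        clear hc hR ih
        induction R with
        | nil => exact absurd h0 (by simp)
        | cons y R ihR =>
          cases y with
          | true => exact ⟨[], R, rfl, by simp⟩
          | false =>
            obtain ⟨s, t, h1, h2⟩ := ihR (by simpa using h0)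
            exact ⟨false :: s, t, by rw [h1]; rfl, by simpa using h2⟩
      have hs' : s = List.replicate s.length false := by
        rw [List.eq_replicate_iff]
        refine ⟨rfl, fun b hb => ?_⟩
        cases b
        · rfl
        · exact absurd hb hs
      by_cases hJ : J ≤ s.length
      · refine ⟨[], List.replicate (s.length - J) false ++ true :: t, ?_⟩
        rw [List.nil_append, ← List.append_assoc, List.replicate_append_replicate,
          show J + (s.length - J) = s.length by omega, ← hs']
      · have hcs : List.count true s = 0 := List.count_eq_zero.2 hs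
        unfold ct at *
        rw [List.count_append, List.count_cons_self, hcs] at hc
        rw [List.length_append, List.length_cons] at hR
        obtain ⟨R1, R2, h1⟩ := ih t (by omega) (by
          have e1 : (c + 1 + 1) * J = (c + 1) * J + J := by ring
          omega)
        exact ⟨s ++ true :: R1, R2, by rw [h1]; simp⟩
    · refine ⟨[], List.replicate (R.length - J) false, ?_⟩
      rw [List.nil_append, List.replicate_append_replicate]
      rw [List.eq_replicate_iff]
      refine ⟨?_, fun b hb => ?_⟩
      · have : J ≤ (c + 1 + 1) * J := Nat.le_mul_of_pos_left _ (by omega)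
        omega
      · cases b
        · rfl
        · exact absurd hb h0

/-- **tall rectangles are solvable** -/
theorem solv_tall {k : ℕ} (hk : 1 ≤ k) {T R B L : List Bool} (hTB : T.length = B.length)
    (hRL : R.length = L.length) (hA : 2 * k + 5 ≤ T.length)
    (hH : (2 * k + 1) * (2 * T.length + 2 * k + 1) + 2 * k ≤ R.length)
    (hC : CG (T ++ (R ++ (B ++ L)))) (hsum : ct T + ct R + ct B + ct L = 2 * k) :
    Solv k T R B L := by
  obtain ⟨R1, R2, hR⟩ := exists_run (2 * T.length + 2 * k + 1) (2 * k) R
    (by unfold ct at *; omega) hH
  rw [hR] at hC hsum hRL ⊢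
  refine solvS4 hk _ _ R1 R2 T B L rfl ?_ hTB hA le_rfl hC ?_
  · rw [← hRL]
    simp only [List.length_append, List.length_replicate]
    omega
  · unfold ct at *
    simp only [List.count_append, List.count_replicate] at hsum
    simp at hsum
    omega

end Sg
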