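import Pool.Agent.Helper8.Sg.Upper
import Pool.Agent.Helper8.CB.Far
import Pool.Agent.Helper81.Tile.SlitTA

/-!
Two-sided bounds for the probabilities of `2k` alternating arms.
-/

set_option autoImplicit false

namespace Sg
open H81Tile H47Perc
open Pool.Agent.Helper69.RSW (P_mono P_nonneg P_le_one P_restrict P_indep Dep)

/-- the exponent of `2k` alternating arms -/
noncomputable def ex (k : ℕ) : ℝ := (4 * (k : ℝ) ^ 2 - 1) / 12

lemma ex_pos {k : ℕ} (hk : 1 ≤ k) : 0 < ex k := by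
  unfold ex
  have : (1 : ℝ) ≤ k := by exact_mod_cast hk
  nlinarith

/-- the probability that all interfaces from the slit leave the box -/
noncomputable def lv (k n : ℕ) : ℝ :=
  Pool.Agent.Helper69.RSW.P (edgesIn (bx n)) (fun ω => AllLeave k n (tcOf ω))

/-- lower bound for the slit event -/
theorem lv_lower {k : ℕ} (hk : 1 ≤ k) : ∃ c : ℝ, 0 < c ∧ ∀ n : ℕ, k ≤ 2 * n →
    c * (n : ℝ) ^ (-ex k) ≤ lv k n := by
  obtain ⟨c, C, hc, _, h⟩ := EA.pk_bounds k hk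
  refine ⟨c * (5 : ℝ) ^ (-ex k), by positivity, fun n hkn => ?_⟩
  have h1 := (h (4 * n + 1) (by omega)).1
  have h2 := arf_le_box (n := n) (k := k) (L := 4 * n + 1) (by omega) (Q := AllLeave k n)
    (fun t t' h => AllLeave.congr (by omega) h)
    (fun A B σ hσ τ hτ h => allLeave_of_arm (by omega) (by omega) hσ hτ h)
  refine le_trans ?_ (h1.trans h2)
  rw [mul_assoc]
  refine mul_le_mul_of_nonneg_left ?_ hc.le
  rw [← Real.mul_rpow (by norm_num) (by positivity)]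
  have hn : 0 < n := by omega
  have hx := ex_pos hk
  show (5 * (n : ℝ)) ^ (-ex k) ≤ ((4 * n + 1 : ℕ) : ℝ) ^ (-ex k)
  refine Real.rpow_le_rpow_of_nonpos (by positivity) ?_ (by linarith)
  push_cast
  have : (1 : ℝ) ≤ (n : ℝ) := by exact_mod_cast hn
  linarith

lemma dep_leave {k r : ℕ} (hk : k ≤ 2 * r) :
    Dep (edgesIn (bx r)) (fun ω => AllLeave k r (tcOf ω)) := by
  intro ω
  have h : ∀ p ∈ tbox (-(r : ℤ)) r (-r) r, tcOf ω p = tcOf (ω ∩ edgesIn (bx r) : Finset _) p := by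
    intro p hp
    have he : te p ∈ edgesIn (bx r) := hp
    unfold tcOf
    simp only [Finset.coe_inter, Set.mem_inter_iff, Finset.mem_coe, he, and_true]
  exact ⟨AllLeave.congr hk h, AllLeave.congr hk fun p hp => (h p hp).symm⟩

lemma dep_alt (k : ℕ) (r n : ℤ) : Dep (Ann r n) (Alt k r n) := by
  intro ω
  unfold Alt du
  have e1 : ω ∩ Ann r n ∩ Ann r n = ω ∩ Ann r n := by
    rw [Finset.inter_assoc, Finset.inter_self]
  have e2 : Ann r n \ (ω ∩ Ann r n) = Ann r n \ ω := by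
    rw [Finset.sdiff_inter_self_right]
  rw [e1, e2]

/-- independence of the slit event in the small box and the event in the annulus -/
theorem lv_le {k r n : ℕ} (hkr : k ≤ 2 * r) (hrn : r ≤ n) : lv k n ≤ lv k r *
    Pool.Agent.Helper69.RSW.P (edgesIn (bx n)) (Alt k r n) := by
  have hsub : edgesIn (bx (r : ℤ)) ⊆ edgesIn (bx (n : ℤ)) := by
    apply edgesIn_mono
    intro z hz
    unfold bx at hz ⊢
    rw [mem_box] at hz ⊢
    omega
  have h1 := P_indep (F := edgesIn (bx (n : ℤ))) hsub (Finset.sdiff_subset)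
    (Finset.disjoint_sdiff) (dep_leave hkr) (dep_alt k r n)
  rw [P_restrict hsub (dep_leave hkr)] at h1
  unfold lv
  rw [← h1]
  refine P_mono fun ω _ h => ⟨fun j hj => (h j hj).sub ?_, alt_of_leave hkr hrn h⟩
  intro p hp
  rw [mem_tbox] at hp ⊢
  omega

/-- **two-sided bounds** given the comparison of the two slit events -/
theorem alt_bounds_of {k : ℕ} (hk : 1 ≤ k)
    (hS4 : ∀ m : ℕ, k ≤ 2 * m → lv k m ≤ Arm57.fA k (2 * m)) :
    (∃ c : ℝ, 0 < c ∧ ∀ r n : ℕ, k ≤ 2 * r → r ≤ n → c * ((r : ℝ) / n) ^ ex k ≤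
      Pool.Agent.Helper69.RSW.P (edgesIn (bx n)) (Alt k r n)) ∧
    ∀ r : ℕ, k ≤ 2 * r → ∃ C : ℝ, ∀ n : ℕ, r ≤ n →
      Pool.Agent.Helper69.RSW.P (edgesIn (bx n)) (Alt k r n) ≤ C * ((r : ℝ) / n) ^ ex k := by
  have hx := ex_pos hk
  obtain ⟨c1, hc1, h1⟩ := lv_lower hk
  obtain ⟨c, C, hc, hC, h⟩ := EA.pk_bounds k hk
  obtain ⟨C2, hC2, h2⟩ := CB.arm_upper_of hk hx hC.le (fun L hL => (h L (by omega)).2)
  have hup : ∀ m : ℕ, k ≤ 2 * m → lv k m ≤ C2 * (m : ℝ) ^ (-ex k) := by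
    intro m hm
    have hm0 : (0 : ℝ) < m := by exact_mod_cast (show 0 < m by omega)
    refine (hS4 m hm).trans ((h2 (2 * m) (by omega)).trans ?_)
    refine mul_le_mul_of_nonneg_left ?_ hC2.le
    refine Real.rpow_le_rpow_of_nonpos hm0 ?_ (by linarith)
    push_cast
    linarith
  constructor
  · refine ⟨c1 / C2, by positivity, fun r n hkr hrn => ?_⟩
    have hr0 : (0 : ℝ) < r := by exact_mod_cast (show 0 < r by omega)
    have hn0 : (0 : ℝ) < n := by exact_mod_cast (show 0 < n by omega)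
    have h3 := h1 n (by omega)
    have h4 := lv_le hkr hrn
    have h5 := hup r hkr
    have hP := P_nonneg (edgesIn (bx (n : ℤ))) (Alt k r n)
    have h6 := h3.trans (h4.trans (mul_le_mul_of_nonneg_right h5 hP))
    rw [Real.div_rpow hr0.le hn0.le]
    rw [Real.rpow_neg hn0.le, Real.rpow_neg hr0.le] at h6
    have hrx : 0 < (r : ℝ) ^ ex k := Real.rpow_pos_of_pos hr0 _
    have hnx : 0 < (n : ℝ) ^ ex k := Real.rpow_pos_of_pos hn0 _
    rw [div_mul_div_comm, div_le_iff₀ (by positivity)]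
    have h7 : c1 * ((n : ℝ) ^ ex k)⁻¹ * (((r : ℝ) ^ ex k) * ((n : ℝ) ^ ex k)) ≤
        C2 * ((r : ℝ) ^ ex k)⁻¹ * Pool.Agent.Helper69.RSW.P (edgesIn (bx (n : ℤ))) (Alt k r n) *
          (((r : ℝ) ^ ex k) * ((n : ℝ) ^ ex k)) := mul_le_mul_of_nonneg_right h6 (by positivity)
    have e1 : c1 * ((n : ℝ) ^ ex k)⁻¹ * (((r : ℝ) ^ ex k) * ((n : ℝ) ^ ex k)) =
        c1 * (r : ℝ) ^ ex k := by field_simp
    have e2 : C2 * ((r : ℝ) ^ ex k)⁻¹ *
        Pool.Agent.Helper69.RSW.P (edgesIn (bx (n : ℤ))) (Alt k r n) *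
          (((r : ℝ) ^ ex k) * ((n : ℝ) ^ ex k)) =
        Pool.Agent.Helper69.RSW.P (edgesIn (bx (n : ℤ))) (Alt k r n) * (C2 * (n : ℝ) ^ ex k) := by
      field_simp
    rw [e1, e2] at h7
    exact h7
  · intro r hkr
    obtain ⟨C3, c0, hC3, h3⟩ := alt_le_leave hk r
    have hr0 : (0 : ℝ) < r := by exact_mod_cast (show 0 < r by omega)
    have hrx : 0 < (r : ℝ) ^ ex k := Real.rpow_pos_of_pos hr0 _
    have hM : ∃ C4 : ℝ, ∀ n : ℕ, r ≤ n →
        Pool.Agent.Helper69.RSW.P (edgesIn (bx n)) (Alt k r n) ≤ C4 * (n : ℝ) ^ (-ex k) := by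
      refine ⟨max (C3 * C2 * (2 : ℝ) ^ ex k) (((2 * c0 + 2 * k : ℕ) : ℝ) ^ ex k), fun n hrn => ?_⟩
      have hn0 : (0 : ℝ) < n := by exact_mod_cast (show 0 < n by omega)
      have hnx : 0 < (n : ℝ) ^ (-ex k) := Real.rpow_pos_of_pos hn0 _
      rcases Nat.lt_or_ge n (2 * c0 + 2 * k) with hn | hn
      · refine (P_le_one _ _).trans ?_
        refine le_trans ?_ (mul_le_mul_of_nonneg_right (le_max_right _ _) hnx.le)
        rw [Real.rpow_neg hn0.le, ← div_eq_mul_inv, one_le_div (Real.rpow_pos_of_pos hn0 _)]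
        exact Real.rpow_le_rpow hn0.le (by exact_mod_cast hn.le) hx.le
      · have h4 := h3 n (n - c0) (by omega) (by omega)
        have h5 := hup (n - c0) (by omega)
        refine (h4.trans (mul_le_mul_of_nonneg_left h5 hC3.le)).trans ?_
        refine le_trans ?_ (mul_le_mul_of_nonneg_right (le_max_left _ _) hnx.le)
        have h6 : (((n - c0 : ℕ)) : ℝ) ^ (-ex k) ≤ (2 : ℝ) ^ ex k * (n : ℝ) ^ (-ex k) := by
          have e1 : (2 : ℝ) ^ ex k * (n : ℝ) ^ (-ex k) = ((n : ℝ) / 2) ^ (-ex k) := by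
            rw [Real.div_rpow hn0.le (by norm_num), Real.rpow_neg (by norm_num : (0 : ℝ) ≤ 2)]
            field_simp
          rw [e1]
          refine Real.rpow_le_rpow_of_nonpos (by positivity) ?_ (by linarith)
          have : (n : ℝ) ≤ 2 * ((n - c0 : ℕ) : ℝ) := by exact_mod_cast (show n ≤ 2 * (n - c0) by omega)
          linarith
        calc C3 * (C2 * (((n - c0 : ℕ)) : ℝ) ^ (-ex k))
            ≤ C3 * (C2 * ((2 : ℝ) ^ ex k * (n : ℝ) ^ (-ex k))) := by gcongr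
          _ = _ := by ring
    obtain ⟨C4, h4⟩ := hM
    refine ⟨C4 / (r : ℝ) ^ ex k, fun n hrn => ?_⟩
    have hn0 : (0 : ℝ) < n := by exact_mod_cast (show 0 < n by omega)
    have hnx : 0 < (n : ℝ) ^ ex k := Real.rpow_pos_of_pos hn0 _
    refine (h4 n hrn).trans (le_of_eq ?_)
    rw [Real.div_rpow hr0.le hn0.le, Real.rpow_neg hn0.le]
    field_simp

/-- **two-sided bounds for `2k` alternating arms** -/
theorem alt_bounds {k : ℕ} (hk : 1 ≤ k) :
    (∃ c : ℝ, 0 < c ∧ ∀ r n : ℕ, k ≤ 2 * r → r ≤ n → c * ((r : ℝ) / n) ^ ex k ≤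
      Pool.Agent.Helper69.RSW.P (edgesIn (bx n)) (Alt k r n)) ∧
    ∀ r : ℕ, k ≤ 2 * r → ∃ C : ℝ, ∀ n : ℕ, r ≤ n →
      Pool.Agent.Helper69.RSW.P (edgesIn (bx n)) (Alt k r n) ≤ C * ((r : ℝ) / n) ^ ex k :=
  alt_bounds_of hk fun _ hm => leave_edges_le_fA hm

end Sg
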