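import Pool.Agent.Helper8.Sg.Comb2
import Pool.Agent.Helper81.Tile.Lower
import Pool.Agent.Helper81.Tile.Ring

/-!
Peeling a rectangle of tiles down to a horizontal slit: the geometric part.
-/

set_option autoImplicit false

namespace Sg
open H81Tile

/-- the sides at which the rectangle `[x0,x1) x [y0,y1)` is entered -/
def Kb (x0 x1 y0 y1 : ℤ) : Set DS := {e |
  (e.2 = 2 ∧ e.1.2 = y1 - 1 ∧ x0 ≤ e.1.1 ∧ e.1.1 < x1) ∨
  (e.2 = 0 ∧ e.1.2 = y0 ∧ x0 ≤ e.1.1 ∧ e.1.1 < x1) ∨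
  (e.2 = 1 ∧ e.1.1 = x1 - 1 ∧ y0 ≤ e.1.2 ∧ e.1.2 < y1) ∨
  (e.2 = 3 ∧ e.1.1 = x0 ∧ y0 ≤ e.1.2 ∧ e.1.2 < y1)}

lemma mem_Kb {x0 x1 y0 y1 : ℤ} {e : DS} : e ∈ Kb x0 x1 y0 y1 ↔
  (e.2 = 2 ∧ e.1.2 = y1 - 1 ∧ x0 ≤ e.1.1 ∧ e.1.1 < x1) ∨
  (e.2 = 0 ∧ e.1.2 = y0 ∧ x0 ≤ e.1.1 ∧ e.1.1 < x1) ∨
  (e.2 = 1 ∧ e.1.1 = x1 - 1 ∧ y0 ≤ e.1.2 ∧ e.1.2 < y1) ∨
  (e.2 = 3 ∧ e.1.1 = x0 ∧ y0 ≤ e.1.2 ∧ e.1.2 < y1) := Iff.rfl

/-- the outward sides, clockwise -/
def sT (x0 y1 : ℤ) (i : ℕ) : DS := ((x0 + i, y1), 0)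
def sR (x1 y1 : ℤ) (i : ℕ) : DS := ((x1, y1 - 1 - i), 3)
def sB (x1 y0 : ℤ) (i : ℕ) : DS := ((x1 - 1 - i, y0 - 1), 2)
def sL (x0 y0 : ℤ) (i : ℕ) : DS := ((x0 - 1, y0 + i), 1)

/-- all marked sides are connected to the outside -/
def Good (t : TC) (D : Set (ℤ × ℤ)) (K : Set DS) (s : ℕ → DS) (w : List Bool) : Prop :=
  ∀ i, w[i]? = some true → CLeaves t D K (s i)

lemma nxt_congr' {t t1 : TC} {d : DS} (h : t1 d.1 = t d.1) : nxt t1 d = nxt t d := by
  unfold nxt
  rw [h]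

lemma rev_nxt_fst (t : TC) (d : DS) : (rev (nxt t d)).1 = d.1 := by rw [rev_nxt]

lemma Kb_of {x0 x1 y0 y1 : ℤ} {e : DS} (h1 : e.1 ∈ Qb x0 x1 y0 y1)
    (h2 : (rev e).1 ∉ Qb x0 x1 y0 y1) : e ∈ Kb x0 x1 y0 y1 := by
  obtain ⟨⟨x, y⟩, c⟩ := e
  rw [mem_Qb] at h1 h2
  rw [mem_Kb]
  fin_cases c <;> simp [rev, dr] at h1 h2 ⊢ <;> omega

/-- following an old strand -/
lemma follow {t t1 : TC} {D Q : Set (ℤ × ℤ)} {K K' : Set DS} {d0 d : DS} {s : ℕ}
    (hoff : ∀ p, p ∉ Q → t1 p = t p) (hK : ∀ e : DS, e.1 ∈ Q → (rev e).1 ∉ Q → e ∈ K)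
    (hK' : ∀ e ∈ K', e.1 ∈ Q ∨ (rev e).1 ∈ Q) (hs : (nxt t1)^[s] d0 = d)
    (hs' : ∀ j, 0 < j → j ≤ s → (nxt t1)^[j] d0 ∉ K') (hd : d.1 ∉ Q) (h : CLeaves t D K d) :
    CLeaves t1 D K' d0 := by
  obtain ⟨n, h1, h2⟩ := h
  have key : ∀ j, j ≤ n → (nxt t1)^[j] d = (nxt t)^[j] d ∧ (j < n → ((nxt t)^[j] d).1 ∉ Q) := by
    intro j
    induction j with
    | zero => intro _; exact ⟨rfl, fun _ => hd⟩
    | succ j ih =>
      intro hj
      obtain ⟨e1, e2⟩ := ih (by omega)
      have e2' := e2 (by omega)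
      rw [Function.iterate_succ_apply', Function.iterate_succ_apply', e1]
      have e3 : nxt t1 ((nxt t)^[j] d) = nxt t ((nxt t)^[j] d) := nxt_congr' (hoff _ e2')
      refine ⟨e3, fun hjn hQ => ?_⟩
      apply h2 (j + 1) (by omega) hjn
      rw [Function.iterate_succ_apply']
      exact hK _ hQ (by rw [rev_nxt_fst]; exact e2')
  refine ⟨s + n, ?_, ?_⟩
  · rw [Nat.add_comm, Function.iterate_add_apply, hs, (key n le_rfl).1]
    exact h1
  · intro j hj hjn hmem
    rcases Nat.lt_or_ge s j with hsj | hsj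
    · obtain ⟨i, rfl⟩ : ∃ i, j = i + 1 + s := ⟨j - s - 1, by omega⟩
      rw [Function.iterate_add_apply, hs, (key (i + 1) (by omega)).1] at hmem
      rcases hK' _ hmem with h3 | h3
      · exact (key (i + 1) (by omega)).2 (by omega) h3
      · rw [Function.iterate_succ_apply', rev_nxt_fst] at h3
        exact (key i (by omega)).2 (by omega) h3
    · exact hs' j hj hsj hmem

/-- forward state of a tile in a line -/
def fw (c : Fin 4) : Bool := decide (c = 0 ∨ c = 2)

lemma prt_bk (c : Fin 4) : prt (!fw c) c = c + 3 := by revert c; decide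
lemma prt_bk2 (c : Fin 4) : prt (!fw c) (c + 3 + 2) = c + 2 := by revert c; decide
lemma prt_fw (c : Fin 4) : prt (fw c) c = c + 1 := by revert c; decide
lemma prt_fw2 (c : Fin 4) : prt (fw c) (c + 1 + 2) = c + 2 := by revert c; decide

lemma line_bk {t : TC} {c : Fin 4} {p : ℤ × ℤ} (h : t p = !fw c) :
    nxt t (p, c) = rev (p, c + 3) := by
  unfold nxt
  rw [h, prt_bk]

lemma line_bk2 {t : TC} {c : Fin 4} {p q : ℤ × ℤ} (hq : q = p + dr (c + 3)) (h : t q = !fw c) :
    nxt t (rev (p, c + 3)) = rev (q, c + 2) := by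
  subst hq
  unfold nxt
  show rev (p + dr (c + 3), prt (t (p + dr (c + 3))) (c + 3 + 2)) = _
  rw [h, prt_bk2]

lemma line_fw {t : TC} {c : Fin 4} {p : ℤ × ℤ} (h : t p = fw c) :
    nxt t (p, c) = rev (p, c + 1) := by
  unfold nxt
  rw [h, prt_fw]

lemma line_fw2 {t : TC} {c : Fin 4} {p q : ℤ × ℤ} (hq : q = p + dr (c + 1)) (h : t q = fw c) :
    nxt t (rev (p, c + 1)) = rev (q, c + 2) := by
  subst hq
  unfold nxt
  show rev (p + dr (c + 1), prt (t (p + dr (c + 1))) (c + 1 + 2)) = _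
  rw [h, prt_fw2]

lemma dr_31 (c : Fin 4) : dr (c + 3) = - dr (c + 1) := by
  fin_cases c <;> rfl

/-- **peeling a line of tiles** -/
theorem line_step {t t1 : TC} {D Q : Set (ℤ × ℤ)} {K K' : Set DS}
    (hoff : ∀ p, p ∉ Q → t1 p = t p) (hK : ∀ e : DS, e.1 ∈ Q → (rev e).1 ∉ Q → e ∈ K)
    (hK' : ∀ e ∈ K', e.1 ∈ Q ∨ (rev e).1 ∈ Q) {N : ℕ} {p : ℕ → ℤ × ℤ} {c : Fin 4}
    (hp : ∀ i, p (i + 1) = p i + dr (c + 1)) {ws : ℕ → DS} (h0 : ws 0 = rev (p 0, c + 3))
    (h1 : ∀ i < N, ws (i + 1) = rev (p i, c + 2))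
    (h2 : ∀ i, i + 1 = N → ws (i + 2) = rev (p i, c + 1))
    {u v : List Bool} (hlen : (u ++ v).length = N)
    (ht : ∀ i < N, t1 (p i) = if i < u.length then !fw c else fw c)
    (hd : ∀ i < N + 2, (ws i).1 ∉ Q) (hw : ∀ i < N + 2, ws i ∉ K')
    (hi3 : ∀ i < N, rev (p i, c + 3) ∉ K') (hi1 : ∀ i < N, rev (p i, c + 1) ∉ K')
    (hG : Good t D K ws (u ++ false :: false :: v)) :
    Good t1 D K' (fun i => (p i, c)) (u ++ v) := by
  intro i hi
  have hiN : i < N := by
    by_contra hc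
    rw [List.getElem?_eq_none (by omega)] at hi
    exact absurd hi (by simp)
  by_cases hiu : i < u.length
  · -- backwards
    have hg : CLeaves t D K (ws i) := by
      apply hG
      rw [List.getElem?_append_left hiu] at hi ⊢
      exact hi
    have e1 := line_bk (t := t1) (c := c) (p := p i) (by rw [ht i hiN, if_pos hiu])
    rcases Nat.eq_zero_or_pos i with rfl | hpos
    · refine follow (s := 1) hoff hK hK' (d := ws 0) ?_ ?_ (hd 0 (by omega)) hg
      · rw [Function.iterate_one, h0]; exact e1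
      · intro j hj hj1
        obtain rfl : j = 1 := by omega
        rw [Function.iterate_one]
        show nxt t1 (p 0, c) ∉ K'
        rw [e1]
        exact hi3 0 hiN
    · obtain ⟨m, rfl⟩ : ∃ m, i = m + 1 := ⟨i - 1, by omega⟩
      have e2 := line_bk2 (t := t1) (c := c) (p := p (m + 1)) (q := p m)
        (by rw [hp m, dr_31]; simp) (by rw [ht m (by omega), if_pos (by omega)])
      refine follow (s := 2) hoff hK hK' (d := ws (m + 1)) ?_ ?_ (hd _ (by omega)) hg
      · show nxt t1 (nxt t1 (p (m + 1), c)) = _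
        rw [e1, e2, h1 m (by omega)]
      · intro j hj hj1
        rcases (by omega : j = 1 ∨ j = 2) with rfl | rfl
        · rw [Function.iterate_one]
          show nxt t1 (p (m + 1), c) ∉ K'
          rw [e1]
          exact hi3 _ hiN
        · show nxt t1 (nxt t1 (p (m + 1), c)) ∉ K'
          rw [e1, e2, ← h1 m (by omega)]
          exact hw _ (by omega)
  · have hg : CLeaves t D K (ws (i + 2)) := by
      apply hG
      rw [List.getElem?_append_right (by omega)] at hi ⊢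
      rw [show i + 2 - u.length = (i - u.length) + 2 by omega]
      exact hi
    have e1 := line_fw (t := t1) (c := c) (p := p i) (by rw [ht i hiN, if_neg hiu])
    by_cases hlast : i + 1 = N
    · refine follow (s := 1) hoff hK hK' (d := ws (i + 2)) ?_ ?_ (hd _ (by omega)) hg
      · rw [Function.iterate_one, h2 i hlast]; exact e1
      · intro j hj hj1
        obtain rfl : j = 1 := by omega
        rw [Function.iterate_one]
        show nxt t1 (p i, c) ∉ K'
        rw [e1]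
        exact hi1 i hiN
    · have e2 := line_fw2 (t := t1) (c := c) (p := p i) (q := p (i + 1))
        (hp i) (by rw [ht (i + 1) (by omega), if_neg (by omega)])
      refine follow (s := 2) hoff hK hK' (d := ws (i + 2)) ?_ ?_ (hd _ (by omega)) hg
      · show nxt t1 (nxt t1 (p i, c)) = _
        rw [e1, e2, h1 (i + 1) (by omega)]
      · intro j hj hj1
        rcases (by omega : j = 1 ∨ j = 2) with rfl | rfl
        · rw [Function.iterate_one]
          show nxt t1 (p i, c) ∉ K'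
          rw [e1]
          exact hi1 _ hiN
        · show nxt t1 (nxt t1 (p i, c)) ∉ K'
          rw [e1, e2, ← h1 (i + 1) (by omega)]
          exact hw _ (by omega)

/-- the other sides -/
lemma Good.keep {t t1 : TC} {D Q : Set (ℤ × ℤ)} {K K' : Set DS}
    (hoff : ∀ p, p ∉ Q → t1 p = t p) (hK : ∀ e : DS, e.1 ∈ Q → (rev e).1 ∉ Q → e ∈ K)
    (hK' : ∀ e ∈ K', e.1 ∈ Q ∨ (rev e).1 ∈ Q) {s s' : ℕ → DS} {w w' : List Bool} (a : ℕ)
    (hs : ∀ i < w'.length, s' i = s (i + a))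
    (hw : ∀ i < w'.length, w'[i]? = some true → w[i + a]? = some true)
    (hd : ∀ i < w'.length, (s' i).1 ∉ Q) (hG : Good t D K s w) : Good t1 D K' s' w' := by
  intro i hi
  have hiN : i < w'.length := by
    by_contra hc
    rw [List.getElem?_eq_none (by omega)] at hi
    exact absurd hi (by simp)
  have := hG _ (hw i hiN hi)
  rw [← hs i hiN] at this
  exact follow (s := 0) hoff hK hK' rfl (fun j h1 h2 => by omega) (hd i hiN) this

lemma Kb_touch {x0 x1 y0 y1 x0' x1' y0' y1' : ℤ} (hx0 : x0 ≤ x0') (hx1 : x1' ≤ x1) (hy0 : y0 ≤ y0')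
    (hy1 : y1' ≤ y1) (hx : x0' ≤ x1') (hy : y0' ≤ y1') (hny : y0 < y1) (hnx : x0 < x1) {e : DS}
    (he : e ∈ Kb x0' x1' y0' y1') : e.1 ∈ Qb x0 x1 y0 y1 ∨ (rev e).1 ∈ Qb x0 x1 y0 y1 := by
  obtain ⟨⟨x, y⟩, c⟩ := e
  rw [mem_Kb] at he
  rw [mem_Qb, mem_Qb]
  fin_cases c <;> simp [rev, dr] at he ⊢ <;> omega

/-- the top row -/
lemma op_top {t : TC} {D : Set (ℤ × ℤ)} {x0 x1 y0 y1 : ℤ} {T R B L u v : List Bool} {l r : Bool}
    (hx1 : x1 = x0 + T.length) (hT : 0 < T.length) (hy1 : y1 = y0 + (R.length + 1 : ℕ))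
    (hB : B.length = T.length) (hL : L.length = R.length)
    (h : l :: (T ++ [r]) = u ++ false :: false :: v)
    (gT : Good t D (Kb x0 x1 y0 y1) (sT x0 y1) T) (gR : Good t D (Kb x0 x1 y0 y1) (sR x1 y1) (r :: R))
    (gB : Good t D (Kb x0 x1 y0 y1) (sB x1 y0) B)
    (gL : Good t D (Kb x0 x1 y0 y1) (sL x0 y0) (L ++ [l])) :
    ∃ t1 : TC, (∀ p, p ∉ Qb x0 x1 y0 y1 → t1 p = t p) ∧
      Good t1 D (Kb x0 x1 y0 (y1 - 1)) (sT x0 (y1 - 1)) (u ++ v) ∧
      Good t1 D (Kb x0 x1 y0 (y1 - 1)) (sR x1 (y1 - 1)) R ∧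
      Good t1 D (Kb x0 x1 y0 (y1 - 1)) (sB x1 y0) B ∧
      Good t1 D (Kb x0 x1 y0 (y1 - 1)) (sL x0 y0) L := by
  classical
  obtain ⟨n1, -⟩ := len_win h
  let t1 : TC := fun p => if p.2 = y1 - 1 ∧ x0 ≤ p.1 ∧ p.1 < x1 then
    (if p.1 < x0 + u.length then false else true) else t p
  have hoff : ∀ p, p ∉ Qb x0 x1 y0 y1 → t1 p = t p := by
    intro p hp
    show (if _ then _ else _) = _
    rw [if_neg]
    rw [mem_Qb] at hp
    omega
  have hK : ∀ e : DS, e.1 ∈ Qb x0 x1 y0 y1 → (rev e).1 ∉ Qb x0 x1 y0 y1 → e ∈ Kb x0 x1 y0 y1 :=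
    fun e => Kb_of
  have hK' : ∀ e ∈ Kb x0 x1 y0 (y1 - 1), e.1 ∈ Qb x0 x1 y0 y1 ∨ (rev e).1 ∈ Qb x0 x1 y0 y1 :=
    fun e he => Kb_touch le_rfl le_rfl le_rfl (by omega) (by omega) (by omega) (by omega)
      (by omega) he
  have lw : (l :: (T ++ [r])).length = T.length + 2 := by simp
  refine ⟨t1, hoff, ?_, ?_, ?_, ?_⟩
  · -- the window
    let ws : ℕ → DS := fun i => if i = 0 then ((x0 - 1, y1 - 1), 1) else
      if i = T.length + 1 then ((x1, y1 - 1), 3) else ((x0 + i - 1, y1), 0)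
    have w0 : ws 0 = ((x0 - 1, y1 - 1), 1) := rfl
    have w1 : ∀ i < T.length, ws (i + 1) = ((x0 + i, y1), 0) := by
      intro i hi
      show (if _ then _ else if _ then _ else _) = _
      rw [if_neg (by omega), if_neg (by omega)]
      push_cast
      congr 2
      ring
    have w2 : ws (T.length + 1) = ((x1, y1 - 1), 3) := by
      show (if _ then _ else if _ then _ else _) = _
      rw [if_neg (by omega), if_pos rfl]
    have wc : ∀ i < T.length + 2, i = 0 ∨ (∃ j < T.length, i = j + 1) ∨ i = T.length + 1 := by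
      intro i hi
      rcases Nat.eq_zero_or_pos i with h0 | h0
      · exact Or.inl h0
      · by_cases h1 : i = T.length + 1
        · exact Or.inr (Or.inr h1)
        · exact Or.inr (Or.inl ⟨i - 1, by omega, by omega⟩)
    have hG : Good t D (Kb x0 x1 y0 y1) ws (l :: (T ++ [r])) := by
      intro i hi
      have hiN : i < T.length + 2 := by
        by_contra hc
        rw [List.getElem?_eq_none (by rw [lw]; omega)] at hi
        exact absurd hi (by simp)
      rcases wc i hiN with rfl | ⟨j, hj, rfl⟩ | rfl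
      · have := gL L.length (by simpa using hi)
        rw [w0]
        have e1 : sL x0 y0 L.length = ((x0 - 1, y1 - 1), 1) := by
          unfold sL
          congr 2
          omega
        rwa [← e1]
      · rw [w1 j hj]
        apply gT j
        rw [List.getElem?_cons_succ, List.getElem?_append_left hj] at hi
        exact hi
      · rw [w2]
        have := gR 0 (by
          rw [List.getElem?_cons_succ, List.getElem?_append_right le_rfl] at hi
          simpa using hi)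
        have e1 : sR x1 y1 0 = ((x1, y1 - 1), 3) := by
          unfold sR
          congr 2
          push_cast
          ring
        rwa [← e1]
    rw [h] at hG
    have := line_step (t1 := t1) (N := T.length) (p := fun i => (x0 + i, y1 - 1)) (c := 0) hoff hK hK'
      (fun i => by simp [dr]; ring) (ws := ws) (by rw [w0]; simp [rev, dr]; rfl)
      (fun i hi => by rw [w1 i hi]; simp [rev, dr])
      (fun i hi => by
        rw [show i + 2 = T.length + 1 by omega, w2, hx1]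
        simp only [rev, dr]
        congr 1
        simp
        omega) n1 ?_ ?_ ?_ ?_ ?_ hG
    · intro i hi
      exact this i hi
    · intro i hi
      show (if _ then _ else _) = _
      rw [if_pos (by simp; omega)]
      simp only
      by_cases hiu : i < u.length
      · rw [if_pos (by omega), if_pos hiu]; rfl
      · rw [if_neg (by omega), if_neg hiu]; rfl
    · intro i hi
      rcases wc i hi with rfl | ⟨j, hj, rfl⟩ | rfl
      · rw [w0, mem_Qb]; simp
      · rw [w1 j hj, mem_Qb]; simp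
      · rw [w2, mem_Qb]; simp
    · intro i hi
      rcases wc i hi with rfl | ⟨j, hj, rfl⟩ | rfl
      · rw [w0, mem_Kb]; simp
      · rw [w1 j hj, mem_Kb]; simp; omega
      · rw [w2, mem_Kb]; simp
    · intro i hi
      rw [mem_Kb]
      simp [rev, dr]
    · intro i hi
      rw [mem_Kb]
      simp [rev, dr]
  · refine gR.keep hoff hK hK' 1 (fun i hi => ?_) (fun i hi h => ?_) (fun i hi => ?_)
    · unfold sR; push_cast; congr 2; ring
    · simpa using h
    · rw [mem_Qb]; simp [sR]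
  · refine gB.keep hoff hK hK' 0 (fun i hi => rfl) (fun i hi h => h) (fun i hi => ?_)
    rw [mem_Qb]; simp [sB]
  · refine gL.keep hoff hK hK' 0 (fun i hi => rfl) (fun i hi h => ?_) (fun i hi => ?_)
    · rw [Nat.add_zero, List.getElem?_append_left hi]; exact h
    · rw [mem_Qb]; simp [sL]

end Sg
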