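import Pool.Agent.Helper8.Sg.Geo

/-!
Peeling a rectangle of tiles down to a horizontal slit: bottom rows, left columns, induction.
-/

set_option autoImplicit false

namespace Sg
open H81Tile

/-- the bottom row -/
lemma op_bot {t : TC} {D : Set (ℤ × ℤ)} {x0 x1 y0 y1 : ℤ} {T R B L u v : List Bool} {l r : Bool}
    (hx1 : x1 = x0 + T.length) (hT : 0 < T.length) (hy1 : y1 = y0 + (R.length + 1 : ℕ))
    (hB : B.length = T.length) (hL : L.length = R.length)
    (h : r :: (B ++ [l]) = u ++ false :: false :: v)
    (gT : Good t D (Kb x0 x1 y0 y1) (sT x0 y1) T)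
    (gR : Good t D (Kb x0 x1 y0 y1) (sR x1 y1) (R ++ [r]))
    (gB : Good t D (Kb x0 x1 y0 y1) (sB x1 y0) B)
    (gL : Good t D (Kb x0 x1 y0 y1) (sL x0 y0) (l :: L)) :
    ∃ t1 : TC, (∀ p, p ∉ Qb x0 x1 y0 y1 → t1 p = t p) ∧
      Good t1 D (Kb x0 x1 (y0 + 1) y1) (sT x0 y1) T ∧
      Good t1 D (Kb x0 x1 (y0 + 1) y1) (sR x1 y1) R ∧
      Good t1 D (Kb x0 x1 (y0 + 1) y1) (sB x1 (y0 + 1)) (u ++ v) ∧
      Good t1 D (Kb x0 x1 (y0 + 1) y1) (sL x0 (y0 + 1)) L := by
  classical
  obtain ⟨n1, -⟩ := len_win h
  rw [hB] at n1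
  let t1 : TC := fun p => if p.2 = y0 ∧ x0 ≤ p.1 ∧ p.1 < x1 then
    (if x1 - 1 - p.1 < u.length then false else true) else t p
  have hoff : ∀ p, p ∉ Qb x0 x1 y0 y1 → t1 p = t p := by
    intro p hp
    show (if _ then _ else _) = _
    rw [if_neg]
    rw [mem_Qb] at hp
    omega
  have hK : ∀ e : DS, e.1 ∈ Qb x0 x1 y0 y1 → (rev e).1 ∉ Qb x0 x1 y0 y1 → e ∈ Kb x0 x1 y0 y1 :=
    fun e => Kb_of
  have hK' : ∀ e ∈ Kb x0 x1 (y0 + 1) y1, e.1 ∈ Qb x0 x1 y0 y1 ∨ (rev e).1 ∈ Qb x0 x1 y0 y1 :=
    fun e he => Kb_touch le_rfl le_rfl (by omega) le_rfl (by omega) (by omega) (by omega)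
      (by omega) he
  have lw : (r :: (B ++ [l])).length = T.length + 2 := by simp [hB]
  refine ⟨t1, hoff, ?_, ?_, ?_, ?_⟩
  · refine gT.keep hoff hK hK' 0 (fun i hi => rfl) (fun i hi h => h) (fun i hi => ?_)
    rw [mem_Qb]; simp [sT]
  · refine gR.keep hoff hK hK' 0 (fun i hi => rfl) (fun i hi h => ?_) (fun i hi => ?_)
    · rw [Nat.add_zero, List.getElem?_append_left hi]; exact h
    · rw [mem_Qb]; simp [sR]
  · -- the window
    let ws : ℕ → DS := fun i => if i = 0 then ((x1, y0), 3) else
      if i = T.length + 1 then ((x0 - 1, y0), 1) else ((x1 - i, y0 - 1), 2)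
    have w0 : ws 0 = ((x1, y0), 3) := rfl
    have w1 : ∀ i < T.length, ws (i + 1) = ((x1 - 1 - i, y0 - 1), 2) := by
      intro i hi
      show (if _ then _ else if _ then _ else _) = _
      rw [if_neg (by omega), if_neg (by omega)]
      push_cast
      congr 2
      ring
    have w2 : ws (T.length + 1) = ((x0 - 1, y0), 1) := by
      show (if _ then _ else if _ then _ else _) = _
      rw [if_neg (by omega), if_pos rfl]
    have wc : ∀ i < T.length + 2, i = 0 ∨ (∃ j < T.length, i = j + 1) ∨ i = T.length + 1 := by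
      intro i hi
      rcases Nat.eq_zero_or_pos i with h0 | h0
      · exact Or.inl h0
      · by_cases h1 : i = T.length + 1
        · exact Or.inr (Or.inr h1)
        · exact Or.inr (Or.inl ⟨i - 1, by omega, by omega⟩)
    have hG : Good t D (Kb x0 x1 y0 y1) ws (r :: (B ++ [l])) := by
      intro i hi
      have hiN : i < T.length + 2 := by
        by_contra hc
        rw [List.getElem?_eq_none (by rw [lw]; omega)] at hi
        exact absurd hi (by simp)
      rcases wc i hiN with rfl | ⟨j, hj, rfl⟩ | rfl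
      · have := gR R.length (by simpa using hi)
        rw [w0]
        have e1 : sR x1 y1 R.length = ((x1, y0), 3) := by
          unfold sR
          congr 2
          push_cast at hy1
          omega
        rwa [← e1]
      · rw [w1 j hj]
        apply gB j
        rw [List.getElem?_cons_succ, List.getElem?_append_left (by omega)] at hi
        exact hi
      · rw [w2]
        have := gL 0 (by
          rw [List.getElem?_cons_succ, List.getElem?_append_right (by omega)] at hi
          simpa [hB] using hi)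
        have e1 : sL x0 y0 0 = ((x0 - 1, y0), 1) := by
          unfold sL
          congr 2
          push_cast
          ring
        rwa [← e1]
    rw [h] at hG
    have := line_step (t1 := t1) (N := T.length) (p := fun i => (x1 - 1 - i, y0)) (c := 2) hoff hK hK'
      (fun i => by simp [dr]; ring) (ws := ws) (by rw [w0]; simp [rev, dr])
      (fun i hi => by rw [w1 i hi]; simp [rev, dr]; ring)
      (fun i hi => by
        rw [show i + 2 = T.length + 1 by omega, w2]
        simp only [rev, dr]
        congr 1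
        simp
        omega) n1 ?_ ?_ ?_ ?_ ?_ hG
    · intro i hi
      have h2 := this i hi
      have e1 : sB x1 (y0 + 1) i = ((x1 - 1 - i, y0), 2) := by
        unfold sB
        congr 2
        ring
      rw [e1]
      exact h2
    · intro i hi
      show (if _ then _ else _) = _
      rw [if_pos (by simp; omega)]
      simp only
      by_cases hiu : i < u.length
      · rw [if_pos (by omega), if_pos hiu]; rfl
      · rw [if_neg (by omega), if_neg hiu]; rfl
    · intro i hi
      rcases wc i hi with rfl | ⟨j, hj, rfl⟩ | rfl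
      · rw [w0, mem_Qb]; simp
      · rw [w1 j hj, mem_Qb]; simp
      · rw [w2, mem_Qb]; simp
    · intro i hi
      rcases wc i hi with rfl | ⟨j, hj, rfl⟩ | rfl
      · rw [w0, mem_Kb]; simp
      · rw [w1 j hj, mem_Kb]; simp; omega
      · rw [w2, mem_Kb]; simp
    · intro i hi
      rw [mem_Kb]
      simp [rev, dr]
    · intro i hi
      rw [mem_Kb]
      simp [rev, dr]
  · refine gL.keep hoff hK hK' 1 (fun i hi => ?_) (fun i hi h => ?_) (fun i hi => ?_)
    · unfold sL; push_cast; congr 2; ring
    · simpa using h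
    · rw [mem_Qb]; simp [sL]

/-- the left column -/
lemma op_left {t' : TC} {D : Set (ℤ × ℤ)} {x0 x1 y0 y1 : ℤ} {T R B L u v : List Bool} {t b : Bool}
    (hx1 : x1 = x0 + (T.length + 1 : ℕ)) (hR : 0 < R.length) (hy1 : y1 = y0 + R.length)
    (hB : B.length = T.length) (hL : L.length = R.length)
    (h : b :: (L ++ [t]) = u ++ false :: false :: v)
    (gT : Good t' D (Kb x0 x1 y0 y1) (sT x0 y1) (t :: T))
    (gR : Good t' D (Kb x0 x1 y0 y1) (sR x1 y1) R)
    (gB : Good t' D (Kb x0 x1 y0 y1) (sB x1 y0) (B ++ [b]))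
    (gL : Good t' D (Kb x0 x1 y0 y1) (sL x0 y0) L) :
    ∃ t1 : TC, (∀ p, p ∉ Qb x0 x1 y0 y1 → t1 p = t' p) ∧
      Good t1 D (Kb (x0 + 1) x1 y0 y1) (sT (x0 + 1) y1) T ∧
      Good t1 D (Kb (x0 + 1) x1 y0 y1) (sR x1 y1) R ∧
      Good t1 D (Kb (x0 + 1) x1 y0 y1) (sB x1 y0) B ∧
      Good t1 D (Kb (x0 + 1) x1 y0 y1) (sL (x0 + 1) y0) (u ++ v) := by
  classical
  obtain ⟨n1, -⟩ := len_win h
  rw [hL] at n1
  let t1 : TC := fun p => if p.1 = x0 ∧ y0 ≤ p.2 ∧ p.2 < y1 then
    (if p.2 - y0 < u.length then true else false) else t' p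
  have hoff : ∀ p, p ∉ Qb x0 x1 y0 y1 → t1 p = t' p := by
    intro p hp
    show (if _ then _ else _) = _
    rw [if_neg]
    rw [mem_Qb] at hp
    omega
  have hK : ∀ e : DS, e.1 ∈ Qb x0 x1 y0 y1 → (rev e).1 ∉ Qb x0 x1 y0 y1 → e ∈ Kb x0 x1 y0 y1 :=
    fun e => Kb_of
  have hK' : ∀ e ∈ Kb (x0 + 1) x1 y0 y1, e.1 ∈ Qb x0 x1 y0 y1 ∨ (rev e).1 ∈ Qb x0 x1 y0 y1 :=
    fun e he => Kb_touch (by omega) le_rfl le_rfl le_rfl (by omega) (by omega) (by omega)
      (by omega) he
  have lw : (b :: (L ++ [t])).length = R.length + 2 := by simp [hL]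
  refine ⟨t1, hoff, ?_, ?_, ?_, ?_⟩
  · refine gT.keep hoff hK hK' 1 (fun i hi => ?_) (fun i hi h => ?_) (fun i hi => ?_)
    · unfold sT; push_cast; congr 2; ring
    · simpa using h
    · rw [mem_Qb]; simp [sT]
  · refine gR.keep hoff hK hK' 0 (fun i hi => rfl) (fun i hi h => h) (fun i hi => ?_)
    rw [mem_Qb]; simp [sR]
  · refine gB.keep hoff hK hK' 0 (fun i hi => rfl) (fun i hi h => ?_) (fun i hi => ?_)
    · rw [Nat.add_zero, List.getElem?_append_left hi]; exact h
    · rw [mem_Qb]; simp [sB]
  · -- the window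
    let ws : ℕ → DS := fun i => if i = 0 then ((x0, y0 - 1), 2) else
      if i = R.length + 1 then ((x0, y1), 0) else ((x0 - 1, y0 + i - 1), 1)
    have w0 : ws 0 = ((x0, y0 - 1), 2) := rfl
    have w1 : ∀ i < R.length, ws (i + 1) = ((x0 - 1, y0 + i), 1) := by
      intro i hi
      show (if _ then _ else if _ then _ else _) = _
      rw [if_neg (by omega), if_neg (by omega)]
      push_cast
      congr 2
      ring
    have w2 : ws (R.length + 1) = ((x0, y1), 0) := by
      show (if _ then _ else if _ then _ else _) = _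
      rw [if_neg (by omega), if_pos rfl]
    have wc : ∀ i < R.length + 2, i = 0 ∨ (∃ j < R.length, i = j + 1) ∨ i = R.length + 1 := by
      intro i hi
      rcases Nat.eq_zero_or_pos i with h0 | h0
      · exact Or.inl h0
      · by_cases h1 : i = R.length + 1
        · exact Or.inr (Or.inr h1)
        · exact Or.inr (Or.inl ⟨i - 1, by omega, by omega⟩)
    have hG : Good t' D (Kb x0 x1 y0 y1) ws (b :: (L ++ [t])) := by
      intro i hi
      have hiN : i < R.length + 2 := by
        by_contra hc
        rw [List.getElem?_eq_none (by rw [lw]; omega)] at hi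
        exact absurd hi (by simp)
      rcases wc i hiN with rfl | ⟨j, hj, rfl⟩ | rfl
      · have := gB B.length (by simpa using hi)
        rw [w0]
        have e1 : sB x1 y0 B.length = ((x0, y0 - 1), 2) := by
          unfold sB
          congr 2
          push_cast at hx1
          omega
        rwa [← e1]
      · rw [w1 j hj]
        apply gL j
        rw [List.getElem?_cons_succ, List.getElem?_append_left (by omega)] at hi
        exact hi
      · rw [w2]
        have := gT 0 (by
          rw [List.getElem?_cons_succ, List.getElem?_append_right (by omega)] at hi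
          simpa [hL] using hi)
        have e1 : sT x0 y1 0 = ((x0, y1), 0) := by
          unfold sT
          congr 2
          push_cast
          ring
        rwa [← e1]
    rw [h] at hG
    have := line_step (t1 := t1) (N := R.length) (p := fun i => (x0, y0 + i)) (c := 1) hoff hK hK'
      (fun i => by simp [dr]; ring) (ws := ws) (by rw [w0]; simp [rev, dr]; rfl)
      (fun i hi => by rw [w1 i hi]; simp [rev, dr]; rfl)
      (fun i hi => by
        rw [show i + 2 = R.length + 1 by omega, w2]
        simp only [rev, dr]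
        congr 1
        simp
        omega) n1 ?_ ?_ ?_ ?_ ?_ hG
    · intro i hi
      have h2 := this i hi
      have e1 : sL (x0 + 1) y0 i = ((x0, y0 + i), 1) := by
        unfold sL
        congr 2
        ring
      rw [e1]
      exact h2
    · intro i hi
      show (if _ then _ else _) = _
      rw [if_pos (by simp; omega)]
      simp only
      by_cases hiu : i < u.length
      · rw [if_pos (by omega), if_pos hiu]; rfl
      · rw [if_neg (by omega), if_neg hiu]; rfl
    · intro i hi
      rcases wc i hi with rfl | ⟨j, hj, rfl⟩ | rfl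
      · rw [w0, mem_Qb]; simp
      · rw [w1 j hj, mem_Qb]; simp
      · rw [w2, mem_Qb]; simp
    · intro i hi
      rcases wc i hi with rfl | ⟨j, hj, rfl⟩ | rfl
      · rw [w0, mem_Kb]; simp
      · rw [w1 j hj, mem_Kb]; simp; omega
      · rw [w2, mem_Kb]; simp
    · intro i hi
      rw [mem_Kb]
      simp [rev, dr]
    · intro i hi
      rw [mem_Kb]
      simp [rev, dr]

lemma cleaves_mono {t : TC} {D : Set (ℤ × ℤ)} {K K' : Set DS} {d : DS} (hK : K' ⊆ K)
    (h : CLeaves t D K d) : CLeaves t D K' d := by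
  obtain ⟨n, h1, h2⟩ := h
  exact ⟨n, h1, fun j h3 h4 h5 => h2 j h3 h4 (hK h5)⟩

lemma Solv.len {k : ℕ} {T R B L : List Bool} (h : Solv k T R B L) : k ≤ T.length := by
  induction h with
  | base a b => simp; omega
  | top hw hs ih => rwa [(len_win hw).1] at ih
  | bot hw hs ih => exact ih
  | left hw hs ih => exact ih.trans (by simp)

/-- **peeling a solvable rectangle** -/
theorem peel {k : ℕ} (hk : 1 ≤ k) {D : Set (ℤ × ℤ)} {T R B L : List Bool} (h : Solv k T R B L) :
    ∀ (x0 x1 y0 y1 : ℤ) (t : TC), x1 = x0 + T.length → y1 = y0 + R.length → B.length = T.length →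
      L.length = R.length → Good t D (Kb x0 x1 y0 y1) (sT x0 y1) T →
      Good t D (Kb x0 x1 y0 y1) (sR x1 y1) R → Good t D (Kb x0 x1 y0 y1) (sB x1 y0) B →
      Good t D (Kb x0 x1 y0 y1) (sL x0 y0) L →
      ∃ (t1 : TC) (a b : ℤ), (∀ p, p ∉ Qb x0 x1 y0 y1 → t1 p = t p) ∧ x0 ≤ a ∧ a + k ≤ x1 ∧
        y0 ≤ b ∧ b ≤ y1 ∧ ∀ j : ℕ, j < k → CLeaves t1 D (Kb a (a + k) b b) (up (a + j) b) ∧
          CLeaves t1 D (Kb a (a + k) b b) (dn (a + j) b) := by
  induction h with
  | base a b =>
    intro x0 x1 y0 y1 t hx1 hy1 _ _ gT _ gB _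
    simp only [List.length_append, List.length_replicate, List.length_nil] at hx1 hy1
    push_cast at hx1 hy1
    have hy : y1 = y0 := by omega
    subst hy
    refine ⟨t, x0 + a, y1, fun p _ => rfl, by omega, by omega, le_rfl, le_rfl, fun j hj => ?_⟩
    have hsub : Kb (x0 + a) (x0 + a + k) y1 y1 ⊆ Kb x0 x1 y1 y1 := by
      intro e he
      rw [mem_Kb] at he ⊢
      omega
    constructor
    · have h1 := gT (a + j) (by
        rw [List.getElem?_append_right (by simp)]
        rw [List.length_replicate, show a + j - a = j by omega,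
          List.getElem?_append_left (by simpa using hj)]
        simp [hj])
      have e1 : sT x0 y1 (a + j) = up (x0 + a + j) y1 := by
        unfold sT up
        push_cast
        congr 2
        ring
      rw [e1] at h1
      exact cleaves_mono hsub h1
    · have h1 := gB (b + (k - 1 - j)) (by
        rw [List.getElem?_append_right (by simp)]
        rw [List.length_replicate, show b + (k - 1 - j) - b = k - 1 - j by omega,
          List.getElem?_append_left (by simp; omega)]
        rw [List.getElem?_replicate, if_pos (by omega)])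
      have e1 : sB x1 y1 (b + (k - 1 - j)) = dn (x0 + a + j) y1 := by
        unfold sB dn
        have : ((b + (k - 1 - j) : ℕ) : ℤ) = b + (k - 1 - j) := by omega
        rw [this]
        congr 2
        omega
      rw [e1] at h1
      exact cleaves_mono hsub h1
  | @top T R B L u v l r hw hs ih =>
    intro x0 x1 y0 y1 t hx1 hy1 hB hL gT gR gB gL
    simp only [List.length_cons, List.length_append, List.length_nil] at hy1 hL
    obtain ⟨n1, -⟩ := len_win hw
    rcases Nat.eq_zero_or_pos T.length with h0 | h0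
    · exfalso
      have := hs.len
      rw [n1] at this
      omega
    · obtain ⟨t1, g0, g1, g2, g3, g4⟩ := op_top hx1 h0 (by push_cast at hy1 ⊢; omega) hB (by omega)
        hw gT gR gB gL
      obtain ⟨t2, a, b, h1, h2, h3, h4, h5, h6⟩ := ih x0 x1 y0 (y1 - 1) t1 (by rw [n1]; exact hx1)
        (by push_cast at hy1; omega) (by rw [n1]; exact hB) (by omega) g1 g2 g3 g4
      refine ⟨t2, a, b, fun p hp => ?_, h2, h3, h4, by omega, h6⟩
      rw [h1 p (fun h => hp (by rw [mem_Qb] at h ⊢; omega)), g0 p hp]
  | @bot T R B L u v l r hw hs ih =>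
    intro x0 x1 y0 y1 t hx1 hy1 hB hL gT gR gB gL
    simp only [List.length_cons, List.length_append, List.length_nil] at hy1 hL
    obtain ⟨n1, -⟩ := len_win hw
    rcases Nat.eq_zero_or_pos T.length with h0 | h0
    · exfalso
      have := hs.len
      omega
    · obtain ⟨t1, g0, g1, g2, g3, g4⟩ := op_bot hx1 h0 (by push_cast at hy1 ⊢; omega) hB (by omega)
        hw gT gR gB gL
      obtain ⟨t2, a, b, h1, h2, h3, h4, h5, h6⟩ := ih x0 x1 (y0 + 1) y1 t1 hx1
        (by push_cast at hy1; omega) (by rw [n1]; exact hB) (by omega) g1 g2 g3 g4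
      refine ⟨t2, a, b, fun p hp => ?_, h2, h3, by omega, h5, h6⟩
      rw [h1 p (fun h => hp (by rw [mem_Qb] at h ⊢; omega)), g0 p hp]
  | @left T R B L u v tt b hw hs ih =>
    intro x0 x1 y0 y1 t hx1 hy1 hB hL gT gR gB gL
    simp only [List.length_cons, List.length_append, List.length_nil] at hx1 hB
    obtain ⟨n1, -⟩ := len_win hw
    rcases Nat.eq_zero_or_pos R.length with h0 | h0
    · have hR0 : R = [] := List.eq_nil_of_length_eq_zero h0
      have hL0 : L = [] := List.eq_nil_of_length_eq_zero (by omega)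
      subst hR0 hL0
      have huv : u ++ v = [] := List.eq_nil_of_length_eq_zero (n1.trans rfl)
      have hyy : y1 = y0 := by simpa using hy1
      subst hyy
      have hsub : Kb (x0 + 1) x1 y1 y1 ⊆ Kb x0 x1 y1 y1 := by
        intro e he
        rw [mem_Kb] at he ⊢
        omega
      have gT' : Good t D (Kb (x0 + 1) x1 y1 y1) (sT (x0 + 1) y1) T := by
        intro i hi
        have h1 := gT (i + 1) (by simpa using hi)
        have e1 : sT x0 y1 (i + 1) = sT (x0 + 1) y1 i := by
          unfold sT
          push_cast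
          congr 2
          ring
        rw [e1] at h1
        exact cleaves_mono hsub h1
      have gB' : Good t D (Kb (x0 + 1) x1 y1 y1) (sB x1 y1) B := by
        intro i hi
        have hiN : i < B.length := by
          by_contra hc
          rw [List.getElem?_eq_none (by omega)] at hi
          exact absurd hi (by simp)
        exact cleaves_mono hsub (gB i (by rw [List.getElem?_append_left hiN]; exact hi))
      obtain ⟨t2, a, b, h1, h2, h3, h4, h5, h6⟩ := ih (x0 + 1) x1 y1 y1 t
        (by push_cast at hx1; omega) hy1 (by omega) (by rw [huv]) gT'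
        (by intro i hi; simp at hi) gB' (by rw [huv]; intro i hi; simp at hi)
      refine ⟨t2, a, b, fun p hp => ?_, by omega, h3, h4, h5, h6⟩
      exact h1 p (fun h => hp (by rw [mem_Qb] at h ⊢; omega))
    · obtain ⟨t1, g0, g1, g2, g3, g4⟩ := op_left (by push_cast at hx1 ⊢; omega) h0 hy1 (by omega)
        hL hw gT gR gB gL
      obtain ⟨t2, a, b, h1, h2, h3, h4, h5, h6⟩ := ih (x0 + 1) x1 y0 y1 t1
        (by push_cast at hx1; omega) hy1 (by omega) (by rw [n1]; exact hL) g1 g2 g3 g4
      refine ⟨t2, a, b, fun p hp => ?_, by omega, h3, h4, h5, h6⟩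
      rw [h1 p (fun h => hp (by rw [mem_Qb] at h ⊢; omega)), g0 p hp]

end Sg
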