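import Pool.Agent.Helper8.Sg.Geo2
import Pool.Agent.Helper32.Sg.Energy

/-!
From `2k` interface strands of alternating parity around a tall box to a slit with `2k` strands.
-/

set_option autoImplicit false

namespace Sg
open H81Tile

/-- the outward sides of the box, clockwise, starting at the top left corner -/
def osd (x0 x1 y0 y1 : ℤ) (A H : ℕ) (i : ℕ) : DS :=
  if i < A then sT x0 y1 i else if i < A + H then sR x1 y1 (i - A) else
    if i < A + H + A then sB x1 y0 (i - (A + H)) else sL x0 y0 (i - (A + H + A))

/-- the word of the marked positions in an interval -/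
def wd (f : ℕ → Bool) (a n : ℕ) : List Bool := (List.range n).map (fun i => f (a + i))

lemma wd_length (f : ℕ → Bool) (a n : ℕ) : (wd f a n).length = n := by simp [wd]

lemma wd_add (f : ℕ → Bool) (a m n : ℕ) : wd f a (m + n) = wd f a m ++ wd f (a + m) n := by
  unfold wd
  rw [List.range_add, List.map_append, List.map_map]
  congr 1
  apply List.map_congr_left
  intro i _
  simp only [Function.comp, Nat.add_assoc]

lemma wd_get {f : ℕ → Bool} {a n i : ℕ} (h : (wd f a n)[i]? = some true) : i < n ∧ f (a + i) = true := by
  have hi : i < n := by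
    by_contra hc
    rw [List.getElem?_eq_none (by rw [wd_length]; omega)] at h
    exact absurd h (by simp)
  refine ⟨hi, ?_⟩
  unfold wd at h
  rw [List.getElem?_map, List.getElem?_range hi] at h
  simpa using h

lemma wd_zero {f : ℕ → Bool} {a n : ℕ} (h : ∀ i, a ≤ i → i < a + n → f i = false) :
    wd f a n = List.replicate n false := by
  rw [List.eq_replicate_iff]
  refine ⟨wd_length f a n, fun b hb => ?_⟩
  unfold wd at hb
  obtain ⟨i, hi, rfl⟩ := List.mem_map.1 hb
  exact h _ (by omega) (by have := List.mem_range.1 hi; omega)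

/-- alternating parity gives a good cyclic word with the right number of ones -/
lemma cg_of_idx {n M : ℕ} (hn : 1 ≤ n) (hn2 : n % 2 = 0) (hM : M % 2 = 0) {f : ℕ → Bool}
    {idx : ℕ → ℕ} (hmono : ∀ j, j + 1 < n → idx j < idx (j + 1)) (hlt : idx (n - 1) < M)
    (hpar : ∀ j, j + 1 < n → (idx j + idx (j + 1)) % 2 = 1)
    (hf : ∀ i, f i = true ↔ ∃ j < n, idx j = i) : CG (wd f 0 M) ∧ ct (wd f 0 M) = n := by
  have hm : ∀ i j, i < j → j < n → idx i < idx j := by
    intro i j hij
    induction j with
    | zero => omega
    | succ j ih =>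
      intro hj
      rcases Nat.lt_or_ge i j with h | h
      · exact lt_trans (ih h (by omega)) (hmono j hj)
      · obtain rfl : i = j := by omega
        exact hmono i hj
  have hpar' : ∀ j < n, (idx 0 + idx j + j) % 2 = 0 := by
    intro j
    induction j with
    | zero => intro _; omega
    | succ j ih => intro hj; have := ih (by omega); have := hpar j hj; omega
  set d : Bool := decide (idx 0 % 2 = 1) with hd
  have hff : ∀ i, (∀ j < n, idx j ≠ i) → f i = false := by
    intro i h
    cases hfi : f i with
    | false => rfl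
    | true =>
      obtain ⟨j, h1, h2⟩ := (hf i).1 hfi
      exact absurd h2 (h j h1)
  have hone : ∀ j < n, wd f (idx j) 1 = [true] := by
    intro j hj
    show [f (idx j + 0)] = [true]
    rw [Nat.add_zero, (hf _).2 ⟨j, hj, rfl⟩]
  have key : ∀ j < n, run d (wd f 0 (idx j)) = some false ∧ ct (wd f 0 (idx j)) = j := by
    intro j
    induction j with
    | zero =>
      intro h0
      rw [wd_zero (fun i _ h2 => hff i (fun j hj he => by
        rcases Nat.eq_zero_or_pos j with rfl | h3
        · omega
        · have := hm 0 j h3 hj; omega)), run_zeros]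
      refine ⟨?_, by simp [List.count_replicate]⟩
      rcases Nat.mod_two_eq_zero_or_one (idx 0) with h | h
      · rw [if_pos h, hd]; simp [h]
      · rw [if_neg (by omega), hd]; simp [h]
    | succ j ih =>
      intro hj
      obtain ⟨h1, h2⟩ := ih (by omega)
      have h3 := hmono j hj
      have e1 : idx (j + 1) = idx j + 1 + (idx (j + 1) - idx j - 1) := by omega
      have e2 : wd f 0 (idx (j + 1)) = wd f 0 (idx j) ++ true ::
          List.replicate (idx (j + 1) - idx j - 1) false := by
        conv_lhs => rw [e1]
        rw [wd_add, wd_add, Nat.zero_add, Nat.zero_add, hone j (by omega)]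
        rw [wd_zero (f := f) (a := idx j + 1) (fun i h4 h5 => hff i (fun j' hj' he => by
          rcases lt_trichotomy j' j with h6 | h6 | h6
          · have := hm j' j h6 (by omega); omega
          · subst h6; omega
          · rcases Nat.lt_or_ge (j + 1) j' with h7 | h7
            · have := hm (j + 1) j' h7 hj'; omega
            · obtain rfl : j' = j + 1 := by omega
              omega))]
        simp
      rw [e2, run_append, h1]
      constructor
      · show run false (true :: _) = _
        show run false (List.replicate _ false) = _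
        have h4 := hpar j hj
        rw [run_zeros, if_pos (by omega)]
      · unfold ct at *
        rw [List.count_append, h2, List.count_cons_self, List.count_replicate]
        simp
  obtain ⟨h1, h2⟩ := key (n - 1) (by omega)
  have e1 : M = idx (n - 1) + 1 + (M - idx (n - 1) - 1) := by omega
  have e2 : wd f 0 M = wd f 0 (idx (n - 1)) ++ true ::
      List.replicate (M - idx (n - 1) - 1) false := by
    conv_lhs => rw [e1]
    rw [wd_add, wd_add, Nat.zero_add, Nat.zero_add, hone (n - 1) (by omega)]
    rw [wd_zero (f := f) (a := idx (n - 1) + 1) (fun i h4 h5 => hff i (fun j' hj' he => by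
      rcases Nat.lt_or_ge j' (n - 1) with h6 | h6
      · have := hm j' (n - 1) h6 (by omega); omega
      · obtain rfl : j' = n - 1 := by omega
        omega))]
    simp
  rw [e2]
  constructor
  · refine ⟨d, ?_⟩
    rw [run_append, h1]
    show run false (List.replicate _ false) = _
    have h4 := hpar' (n - 1) (by omega)
    rw [run_zeros, hd]
    rcases Nat.mod_two_eq_zero_or_one (idx 0) with h | h
    · rw [if_pos (by omega)]; simp [h]
    · rw [if_neg (by omega)]; simp [h]
  · unfold ct at *
    rw [List.count_append, h2, List.count_cons_self, List.count_replicate]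
    simp
    omega

/-- **(S2)**: a tall box with `2k` interface strands of alternating parity can be changed inside so
that all interfaces from a slit of length `k` leave the big box -/
theorem slit_of_ring {k : ℕ} (hk : 1 ≤ k) {t : TC} {D : Set (ℤ × ℤ)} {x0 x1 y0 y1 : ℤ} {A H : ℕ}
    (hx : x1 = x0 + A) (hy : y1 = y0 + H) (hA : 2 * k + 5 ≤ A)
    (hH : (2 * k + 1) * (2 * A + 2 * k + 1) + 2 * k ≤ H) {idx : ℕ → ℕ}
    (hmono : ∀ j, j + 1 < 2 * k → idx j < idx (j + 1)) (hlt : idx (2 * k - 1) < 2 * (A + H))
    (hpar : ∀ j, j + 1 < 2 * k → (idx j + idx (j + 1)) % 2 = 1)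
    (hC : ∀ j < 2 * k, CLeaves t D (Kb x0 x1 y0 y1) (osd x0 x1 y0 y1 A H (idx j))) :
    ∃ (t1 : TC) (z : ℤ × ℤ), (∀ p, p ∉ Qb x0 x1 y0 y1 → t1 p = t p) ∧
      x0 ≤ z.1 ∧ z.1 + k ≤ x1 ∧ y0 ≤ z.2 ∧ z.2 ≤ y1 ∧
      ∀ d ∈ CutAt k z, CLeaves t1 D (CutAt k z) d := by
  classical
  let f : ℕ → Bool := fun i => decide (∃ j < 2 * k, idx j = i)
  have hf : ∀ i, f i = true ↔ ∃ j < 2 * k, idx j = i := fun i => by simp [f]
  obtain ⟨c1, c2⟩ := cg_of_idx (n := 2 * k) (M := 2 * (A + H)) (by omega) (by omega) (by omega)
    hmono hlt hpar hf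
  have e0 : 2 * (A + H) = A + (H + (A + H)) := by ring
  rw [e0, wd_add, wd_add, wd_add, Nat.zero_add] at c1 c2
  have hS : Solv k (wd f 0 A) (wd f A H) (wd f (A + H) A) (wd f (A + H + A) H) := by
    refine solv_tall hk (by rw [wd_length, wd_length]) (by rw [wd_length, wd_length])
      (by rw [wd_length]; exact hA) (by rw [wd_length, wd_length]; exact hH) c1 ?_
    unfold ct at *
    rw [List.count_append, List.count_append, List.count_append] at c2
    omega
  have hg : ∀ i, f i = true → CLeaves t D (Kb x0 x1 y0 y1) (osd x0 x1 y0 y1 A H i) := by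
    intro i hi
    obtain ⟨j, h1, rfl⟩ := (hf i).1 hi
    exact hC j h1
  have gT : Good t D (Kb x0 x1 y0 y1) (sT x0 y1) (wd f 0 A) := by
    intro i hi
    obtain ⟨hi1, hi2⟩ := wd_get hi
    rw [Nat.zero_add] at hi2
    have := hg i hi2
    unfold osd at this
    rwa [if_pos hi1] at this
  have gR : Good t D (Kb x0 x1 y0 y1) (sR x1 y1) (wd f A H) := by
    intro i hi
    obtain ⟨hi1, hi2⟩ := wd_get hi
    have := hg _ hi2
    unfold osd at this
    rwa [if_neg (by omega), if_pos (by omega), Nat.add_sub_cancel_left] at this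
  have gB : Good t D (Kb x0 x1 y0 y1) (sB x1 y0) (wd f (A + H) A) := by
    intro i hi
    obtain ⟨hi1, hi2⟩ := wd_get hi
    have := hg _ hi2
    unfold osd at this
    rwa [if_neg (by omega), if_neg (by omega), if_pos (by omega), Nat.add_sub_cancel_left] at this
  have gL : Good t D (Kb x0 x1 y0 y1) (sL x0 y0) (wd f (A + H + A) H) := by
    intro i hi
    obtain ⟨hi1, hi2⟩ := wd_get hi
    have := hg _ hi2
    unfold osd at this
    rwa [if_neg (by omega), if_neg (by omega), if_neg (by omega), Nat.add_sub_cancel_left] at this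
  obtain ⟨t1, a, b, h1, h2, h3, h4, h5, h6⟩ := peel hk hS x0 x1 y0 y1 t
    (by rw [wd_length]; exact hx) (by rw [wd_length]; exact hy) (by rw [wd_length, wd_length])
    (by rw [wd_length, wd_length]) gT gR gB gL
  have hK : Kb a (a + k) b b = CutAt k (a, b) := by
    ext ⟨⟨x, y⟩, c⟩
    rw [mem_Kb]
    constructor
    · rintro (⟨q1, q2, q3, q4⟩ | ⟨q1, q2, q3, q4⟩ | ⟨_, _, q3, q4⟩ | ⟨_, _, q3, q4⟩)
      · refine ⟨x - a, by simp only at q3; omega, by simp only at q4; omega, Or.inr ?_⟩
        simp only at q1 q2
        unfold dn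
        simp only
        rw [q1, q2]
        congr 2
        ring
      · refine ⟨x - a, by simp only at q3; omega, by simp only at q4; omega, Or.inl ?_⟩
        simp only at q1 q2
        unfold up
        simp only
        rw [q1, q2]
        congr 2
        ring
      · omega
      · omega
    · rintro ⟨x', q1, q2, q3 | q3⟩
      · unfold up at q3
        simp only [Prod.mk.injEq] at q3
        obtain ⟨⟨q3, q4⟩, q5⟩ := q3
        right; left
        refine ⟨q5, q4, ?_, ?_⟩
        · simp only; omega
        · simp only; omega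
      · unfold dn at q3
        simp only [Prod.mk.injEq] at q3
        obtain ⟨⟨q3, q4⟩, q5⟩ := q3
        left
        refine ⟨q5, q4, ?_, ?_⟩
        · simp only; omega
        · simp only; omega
  refine ⟨t1, (a, b), h1, h2, h3, h4, h5, ?_⟩
  rw [hK] at h6
  rintro d ⟨x, q1, q2, rfl | rfl⟩
  · have := (h6 x.toNat (by omega)).1
    rwa [Int.toNat_of_nonneg q1] at this
  · have := (h6 x.toNat (by omega)).2
    rwa [Int.toNat_of_nonneg q1] at this

end Sg
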