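import Pool.Agent.Helper8.Sg.Slit
import Pool.Agent.Helper81.Tile.RingExit

/-!
The `2k`-arm event of an annulus versus the slit event: the surgery bound.
-/

set_option autoImplicit false

namespace Sg
open H81Tile H47Perc

lemma Kb_sub {x0 x1 y0 y1 : ℤ} (hx : x0 < x1) (hy : y0 < y1) {e : DS} (he : e ∈ Kb x0 x1 y0 y1) :
    e.1 ∈ Qb x0 x1 y0 y1 := by
  rw [mem_Kb] at he
  rw [mem_Qb]
  omega

lemma cleaves_of_esc {t : TC} {D : Set (ℤ × ℤ)} {x0 x1 y0 y1 : ℤ} (hx : x0 < x1) (hy : y0 < y1)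
    {d : DS} (h : Esc t D (Qb x0 x1 y0 y1) d) : CLeaves t D (Kb x0 x1 y0 y1) d := by
  obtain ⟨n, h1, h2⟩ := h
  exact ⟨n, h1, fun j _ hj hK => h2 j hj (Kb_sub hx hy hK)⟩

lemma os_eq_osd {x0 x1 y0 y1 : ℤ} {A H : ℕ} (hx : x1 = x0 + A) (hy : y1 = y0 + H) {i : ℤ}
    (h0 : 0 ≤ i) : os x0 x1 y0 y1 i = osd x0 x1 y0 y1 A H i.toNat := by
  obtain ⟨m, rfl⟩ := Int.eq_ofNat_of_zero_le h0
  rw [Int.toNat_natCast]
  unfold os osd
  by_cases c1 : m < A
  · rw [if_pos (by omega), if_pos c1]; rfl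
  · by_cases c2 : m < A + H
    · rw [if_neg (by omega), if_pos (by omega), if_neg c1, if_pos c2]
      unfold sR
      congr 2
      omega
    · by_cases c3 : m < A + H + A
      · rw [if_neg (by omega), if_neg (by omega), if_pos (by omega), if_neg c1, if_neg c2, if_pos c3]
        unfold sB
        congr 2
        omega
      · rw [if_neg (by omega), if_neg (by omega), if_neg (by omega), if_neg c1, if_neg c2,
          if_neg c3]
        unfold sL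
        congr 2
        omega

/-- **surgery**: the `2k`-arm probability of the annulus is bounded by a constant times the
probability that all interfaces from the slit leave a slightly smaller box -/
theorem alt_le_leave {k : ℕ} (hk : 1 ≤ k) (r : ℕ) : ∃ (C : ℝ) (c0 : ℕ), 0 < C ∧ ∀ n m : ℕ,
    m + c0 ≤ n → k ≤ 2 * m → Pool.Agent.Helper69.RSW.P (edgesIn (bx n)) (Alt k r n) ≤
      C * Pool.Agent.Helper69.RSW.P (edgesIn (bx m)) (fun ω => AllLeave k m (tcOf ω)) := by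
  classical
  obtain ⟨A, hA⟩ : ∃ A : ℕ, A = 2 * (2 * r + 1) + 2 * k + 5 := ⟨_, rfl⟩
  obtain ⟨H, hH⟩ : ∃ H : ℕ, H = (2 * k + 1) * (2 * A + 2 * k + 1) + 2 * k + 2 * (2 * r + 1) :=
    ⟨_, rfl⟩
  obtain ⟨x0, hx0⟩ : ∃ x0 : ℤ, x0 = -(2 * r + 1) := ⟨_, rfl⟩
  obtain ⟨x1, hx1⟩ : ∃ x1 : ℤ, x1 = x0 + A := ⟨_, rfl⟩
  obtain ⟨y0, hy0⟩ : ∃ y0 : ℤ, y0 = -(2 * r + 1) := ⟨_, rfl⟩
  obtain ⟨y1, hy1⟩ : ∃ y1 : ℤ, y1 = y0 + H := ⟨_, rfl⟩
  have hHbig : 2 * (2 * r + 1) ≤ H := by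
    rw [hH]; exact Nat.le_add_left _ _
  let Q : Finset (ℤ × ℤ) := Finset.Ico x0 x1 ×ˢ Finset.Ico y0 y1
  let Z : Finset (ℤ × ℤ) := Finset.Icc x0 x1 ×ˢ Finset.Icc y0 y1
  have hQ : ∀ p, p ∈ Q ↔ p ∈ Qb x0 x1 y0 y1 := by
    intro p
    show p ∈ Finset.Ico x0 x1 ×ˢ Finset.Ico y0 y1 ↔ _
    rw [Finset.mem_product, Finset.mem_Ico, Finset.mem_Ico, mem_Qb]
    tauto
  have hZ : ∀ p, p ∈ Z ↔ x0 ≤ p.1 ∧ p.1 ≤ x1 ∧ y0 ≤ p.2 ∧ p.2 ≤ y1 := by
    intro p
    show p ∈ Finset.Icc x0 x1 ×ˢ Finset.Icc y0 y1 ↔ _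
    rw [Finset.mem_product, Finset.mem_Icc, Finset.mem_Icc]
    tauto
  have hZ0 : 0 < Z.card := Finset.card_pos.2 ⟨(x0, y0), (hZ _).2 ⟨le_rfl, by omega, le_rfl, by omega⟩⟩
  refine ⟨2 ^ Q.card * Z.card, A + H, by positivity, fun n m hnm hkm => ?_⟩
  refine surg_energy hkm Q Z ?_ ?_ ?_
  · intro p hp
    rw [hQ, mem_Qb] at hp
    rw [mem_tbox]
    omega
  · intro z hz
    rw [hZ] at hz
    have e1 := abs_le.2 (show -((A : ℤ) + H + (A + H)) ≤ z.1 + z.2 ∧ z.1 + z.2 ≤ (A : ℤ) + H + (A + H) by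
      omega)
    have e2 := abs_le.2 (show -((A : ℤ) + H + (A + H)) ≤ z.2 - z.1 ∧ z.2 - z.1 ≤ (A : ℤ) + H + (A + H) by
      omega)
    constructor <;> omega
  · intro ω _ hω
    have hxx : x0 < x1 := by omega
    have hyy : y0 < y1 := by omega
    obtain ⟨ι, h1, h2⟩ := alt_exits (by omega) (r := r) (n := n) (x0 := x0) (x1 := x1) (y0 := y0)
      (y1 := y1) (by omega) (by omega) (by omega) (by omega) (by omega) (by
        intro p hp
        rw [mem_Qb] at hp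
        rw [mem_tbox]
        omega) hω
    have hmono : ∀ j, j + 1 < 2 * k → (ι j).toNat < (ι (j + 1)).toNat := by
      intro j hj
      have := h2 j hj
      have := h1 j (by omega)
      omega
    obtain ⟨t1, z, g0, g1, g2, g3, g4, g5⟩ := slit_of_ring hk (t := tcOf ω)
      (D := tbox (-(n : ℤ)) n (-n) n) (x0 := x0) (x1 := x1) (y0 := y0) (y1 := y1) (A := A) (H := H)
      hx1 hy1 (by omega) (by omega) (idx := fun j => (ι j).toNat) hmono
      (by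
        have := h1 (2 * k - 1) (by omega)
        unfold per at this
        show (ι (2 * k - 1)).toNat < _
        omega)
      (fun j hj => by
        have := h2 j hj
        have := h1 j (by omega)
        have := h1 (j + 1) hj
        show ((ι j).toNat + (ι (j + 1)).toNat) % 2 = 1
        omega)
      (fun j hj => by
        obtain ⟨a1, a2, a3⟩ := h1 j hj
        rw [os_eq_osd hx1 hy1 a1] at a3
        exact cleaves_of_esc hxx hyy a3)
    refine ⟨t1, fun p hp => g0 p (fun h => hp ((hQ p).2 h)), z, (hZ z).2 ⟨g1, ?_, g3, g4⟩, g5⟩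
    omega

end Sg
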